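import Pool.Agent.H93.PF.TargetsD
import Pool.Agent.H85.RTX.Birk
import Pool.Agent.H58.KF.MeanAE

/-!
# Power-free shifts: the averages of the conditional information (row RBI)
-/

set_option autoImplicit false

open MeasureTheory Filter Topology Finset Pool.Agent.H93.PF

namespace Pool.Agent.H4.PF

/-- The pointwise ergodic theorem for bounded functions of an ergodic transformation. -/
theorem birkhoff_erg {Ω : Type*} [MeasurableSpace Ω] (ν : Measure Ω) [IsProbabilityMeasure ν]
    {S : Ω → Ω} (hS : Ergodic S ν) {h : Ω → ℝ} (hm : Measurable h) {C : ℝ}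
    (hb : ∀ ω, |h ω| ≤ C) :
    ∀ᵐ ω ∂ν, Tendsto (fun N : ℕ => (∑ n ∈ range N, h (S^[n] ω)) / N) atTop
      (𝓝 (∫ ω, h ω ∂ν)) := by
  have h1 := Pool.Agent.H85.RTX.birkhoff hS.toMeasurePreserving hm hb
  have hmem : MemLp h 2 ν := by
    refine MemLp.of_bound hm.aestronglyMeasurable C ?_
    exact Eventually.of_forall (fun ω => by rw [Real.norm_eq_abs]; exact hb ω)
  obtain ⟨κ, hκ, h2⟩ := KF58.mean_ae ν hS hmem
  filter_upwards [h1, h2] with ω h3 h4
  obtain ⟨l, hl⟩ := h3
  have h5 : (∫ x, h x ∂ν) / (ν Set.univ).toReal = ∫ x, h x ∂ν := by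
    rw [measure_univ, ENNReal.toReal_one, div_one]
  rw [h5] at h4
  have h6 : Tendsto (fun k => (∑ n ∈ range (κ k), h (S^[n] ω)) / (κ k : ℝ)) atTop (𝓝 l) :=
    hl.comp hκ.tendsto_atTop
  have h7 := tendsto_nhds_unique h6 h4
  rw [← h7]
  exact hl

section
variable {Y : Type} [MeasurableSpace Y]

/-- the name of length `n` -/
def nm (T : Y → Y) {K : ℕ} (P : Y → Fin K) (n : ℕ) (y : Y) : Fin n → Fin K :=
  fun i => P (T^[(i : ℕ)] y)

theorem nm_meas {T : Y → Y} (hT : Measurable T) {K : ℕ} {P : Y → Fin K} (hP : Measurable P)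
    (n : ℕ) : Measurable (nm T P n) := by
  rw [measurable_pi_iff]
  intro i
  exact hP.comp (hT.iterate i)

theorem nm_pre (T : Y → Y) {K : ℕ} (P : Y → Fin K) {n : ℕ} (w : Fin n → Fin K) :
    nm T P n ⁻¹' {w} = cyl T P w := by
  ext y
  simp only [Set.mem_preimage, Set.mem_singleton_iff, cyl, Set.mem_setOf_eq, nm]
  exact ⟨fun h i => congrFun h i, fun h => funext h⟩

theorem pn_pos_ae (ν : Measure Y) [IsProbabilityMeasure ν] (T : Y → Y) {K : ℕ}
    (P : Y → Fin K) (l : ℕ) : ∀ᵐ y ∂ν, 0 < pn ν T P l y := by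
  have h1 : ∀ᵐ y ∂ν, ∀ w : Fin l → Fin K, y ∈ cyl T P w → ν (cyl T P w) ≠ 0 := by
    rw [ae_all_iff]
    intro w
    by_cases hw : ν (cyl T P w) = 0
    · filter_upwards [measure_eq_zero_iff_ae_notMem.1 hw] with y hy hy'
      exact absurd hy' hy
    · exact Eventually.of_forall (fun y _ => hw)
  filter_upwards [h1] with y hy
  unfold pn
  rw [measureReal_def]
  refine ENNReal.toReal_pos (hy _ ?_) (measure_ne_top _ _)
  intro i
  rfl

theorem log_pn_bdd (ν : Measure Y) (T : Y → Y) {K : ℕ} (P : Y → Fin K) (k : ℕ) :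
    ∃ C : ℝ, ∀ y, |Real.log (pn ν T P k y)| ≤ C := by
  refine ⟨∑ w : Fin k → Fin K, |Real.log (ν.real (cyl T P w))|, fun y => ?_⟩
  exact Finset.single_le_sum (f := fun w : Fin k → Fin K => |Real.log (ν.real (cyl T P w))|)
    (fun w _ => abs_nonneg _) (Finset.mem_univ (nm T P k y))

theorem log_pn_meas (ν : Measure Y) {T : Y → Y} (hT : Measurable T) {K : ℕ} {P : Y → Fin K}
    (hP : Measurable P) (k : ℕ) : Measurable (fun y => Real.log (pn ν T P k y)) := by
  have h1 : (fun y => Real.log (pn ν T P k y)) =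
      (fun w : Fin k → Fin K => Real.log (ν.real (cyl T P w))) ∘ nm T P k := rfl
  rw [h1]
  exact (measurable_of_finite _).comp (nm_meas hT hP k)

theorem log_pn_int (ν : Measure Y) [IsProbabilityMeasure ν] {T : Y → Y} (hT : Measurable T)
    {K : ℕ} {P : Y → Fin K} (hP : Measurable P) (k : ℕ) :
    ∫ y, Real.log (pn ν T P k y) ∂ν = -Hn ν T P k := by
  have hm := nm_meas hT hP k
  have h1 : ∫ y, Real.log (pn ν T P k y) ∂ν =
      ∫ w, Real.log (ν.real (cyl T P w)) ∂(ν.map (nm T P k)) := by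
    rw [integral_map hm.aemeasurable]
    · rfl
    · exact (measurable_of_finite _).aestronglyMeasurable
  have : IsProbabilityMeasure (ν.map (nm T P k)) := Measure.isProbabilityMeasure_map hm.aemeasurable
  rw [h1, integral_fintype (Integrable.of_finite)]
  unfold Hn
  rw [← Finset.sum_neg_distrib]
  refine Finset.sum_congr rfl (fun w _ => ?_)
  rw [map_measureReal_apply hm (measurableSet_singleton w), nm_pre, Real.negMulLog, smul_eq_mul]
  ring

end

theorem pf_RBI : T_RBI := by
  intro Y _ ν _ T K K' P P' k hE hP hP'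
  have hT : Measurable (T : Y → Y) := T.measurable
  have hmp : MeasurePreserving (T : Y → Y) ν ν := hE.toMeasurePreserving
  obtain ⟨C, hC⟩ := log_pn_bdd ν T P k
  obtain ⟨C', hC'⟩ := log_pn_bdd ν T P' k
  have h1 := birkhoff_erg ν hE (h := fun y => Real.log (pn ν T P' k y) - Real.log (pn ν T P k y))
    ((log_pn_meas ν hT hP' k).sub (log_pn_meas ν hT hP k)) (C := C' + C)
    (fun y => (abs_sub _ _).trans (add_le_add (hC' y) (hC y)))
  have hint : ∫ y, (Real.log (pn ν T P' k y) - Real.log (pn ν T P k y)) ∂ν =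
      Hn ν T P k - Hn ν T P' k := by
    rw [integral_sub, log_pn_int ν hT hP' k, log_pn_int ν hT hP k]
    · ring
    · exact Integrable.of_bound (log_pn_meas ν hT hP' k).aestronglyMeasurable C'
        (Eventually.of_forall (fun y => by rw [Real.norm_eq_abs]; exact hC' y))
    · exact Integrable.of_bound (log_pn_meas ν hT hP k).aestronglyMeasurable C
        (Eventually.of_forall (fun y => by rw [Real.norm_eq_abs]; exact hC y))
  rw [hint] at h1
  have h2 : ∀ᵐ y ∂ν, ∀ i l : ℕ, 0 < pn ν T P l (T^[i] y) ∧ 0 < pn ν T P' l (T^[i] y) := by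
    rw [ae_all_iff]
    intro i
    rw [ae_all_iff]
    intro l
    have h3 := (hmp.iterate i).quasiMeasurePreserving.ae (pn_pos_ae ν T P l)
    have h4 := (hmp.iterate i).quasiMeasurePreserving.ae (pn_pos_ae ν T P' l)
    filter_upwards [h3, h4] with y h5 h6
    exact ⟨h5, h6⟩
  filter_upwards [h1, h2] with y h3 h4
  exact ⟨h4, h3⟩

end Pool.Agent.H4.PF
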