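import Pool.Agent.H93.PF.TargetsD
import Pool.Agent.H4.PF.RBI

/-!
# Power-free shifts: number of the large cylinders, size of the fibres (rows CAR and FIB)
-/

set_option autoImplicit false

open MeasureTheory Filter Topology Finset Pool.Agent.H93.PF

namespace Pool.Agent.H4.PF

section
variable {Y : Type} [MeasurableSpace Y]

theorem cyl_meas {T : Y → Y} (hT : Measurable T) {K : ℕ} {P : Y → Fin K} (hP : Measurable P)
    {n : ℕ} (w : Fin n → Fin K) : MeasurableSet (cyl T P w) := by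
  rw [← nm_pre]
  exact nm_meas hT hP n (measurableSet_singleton w)

theorem cyl_disj (T : Y → Y) {K : ℕ} (P : Y → Fin K) {n : ℕ} {w w' : Fin n → Fin K}
    (h : w ≠ w') : Disjoint (cyl T P w) (cyl T P w') := by
  rw [Set.disjoint_left]
  intro y hy hy'
  apply h
  funext i
  rw [← hy i, ← hy' i]

theorem ncard_le (ν : Measure Y) [IsProbabilityMeasure ν] {T : Y → Y} (hT : Measurable T)
    {K : ℕ} {P : Y → Fin K} (hP : Measurable P) {r : ℕ} (S : Set (Fin r → Fin K)) (A : Set Y)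
    (c : ℝ) (h : ∀ w ∈ S, cyl T P w ⊆ A ∧ c * ν.real A ≤ ν.real (cyl T P w) ∧
      0 < ν.real (cyl T P w)) : (S.ncard : ℝ) * c ≤ 1 := by
  rcases S.eq_empty_or_nonempty with h0 | ⟨w₀, hw₀⟩
  · rw [h0]
    simp
  have hA : 0 < ν.real A := lt_of_lt_of_le (h w₀ hw₀).2.2 (measureReal_mono (h w₀ hw₀).1)
  have hS : S.Finite := Set.toFinite S
  rw [Set.ncard_eq_toFinset_card S hS]
  have h1 : ∑ w ∈ hS.toFinset, c * ν.real A ≤ ∑ w ∈ hS.toFinset, ν.real (cyl T P w) :=
    Finset.sum_le_sum (fun w hw => (h w (hS.mem_toFinset.1 hw)).2.1)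
  have h2 : ∑ w ∈ hS.toFinset, ν.real (cyl T P w) = ν.real (⋃ w ∈ hS.toFinset, cyl T P w) := by
    rw [measureReal_biUnion_finset]
    · intro w _ w' _ hww
      exact cyl_disj T P hww
    · exact fun w _ => cyl_meas hT hP w
  have h3 : ν.real (⋃ w ∈ hS.toFinset, cyl T P w) ≤ ν.real A := by
    refine measureReal_mono ?_ (measure_ne_top ν A)
    intro y hy
    simp only [Set.mem_iUnion] at hy
    obtain ⟨w, hw, hy⟩ := hy
    exact (h w (hS.mem_toFinset.1 hw)).1 hy
  rw [Finset.sum_const, nsmul_eq_mul] at h1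
  have h4 : ((hS.toFinset.card : ℝ) * c) * ν.real A ≤ 1 * ν.real A := by
    rw [one_mul, mul_assoc]
    exact h1.trans (h2.le.trans h3)
  exact le_of_mul_le_mul_right h4 hA

end

theorem pf_CAR : T_CAR := by
  intro Y _ ν _ T K P h' r hP
  have h1 := ncard_le ν T.measurable hP
    {w : Fin r → Fin K | Real.exp (-h' * r) ≤ ν.real (cyl T P w)} Set.univ
    (Real.exp (-h' * r)) (fun w hw => ⟨Set.subset_univ _, by
      rw [probReal_univ, mul_one]
      exact hw, lt_of_lt_of_le (Real.exp_pos _) hw⟩)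
  have h2 : Real.exp (-h' * r) = (Real.exp (h' * r))⁻¹ := by
    rw [← Real.exp_neg]
    congr 1
    ring
  rw [h2, ← div_eq_mul_inv, div_le_one (Real.exp_pos _)] at h1
  rw [← h2] at h1
  exact h1

theorem pf_FIB : T_FIB := by
  intro Y _ ν _ T K K' P P' π δ r v hP' hPπ
  have h1 := ncard_le ν T.measurable hP'
    {w : Fin r → Fin K' | (0 < ν.real (cyl T P' w) ∧
      Real.exp (-δ * r) * ν.real (cyl T P fun i => π (w i)) ≤ ν.real (cyl T P' w)) ∧
      ∀ i, π (w i) = v i} (cyl T P v) (Real.exp (-δ * r)) (fun w hw => by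
      obtain ⟨⟨h1, h2⟩, h3⟩ := hw
      have h4 : (fun i => π (w i)) = v := funext h3
      rw [h4] at h2
      refine ⟨?_, h2, h1⟩
      intro y hy i
      rw [hPπ, hy i, h3 i])
  have h2 : Real.exp (-δ * r) = (Real.exp (δ * r))⁻¹ := by
    rw [← Real.exp_neg]
    congr 1
    ring
  rw [h2, ← div_eq_mul_inv, div_le_one (Real.exp_pos _)] at h1
  rw [← h2] at h1
  exact h1

end Pool.Agent.H4.PF
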