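import Pool.Agent.H93.PF.TargetsD

/-!
# Power-free shifts: existence of the data of the coding, no generator (row CX2)
-/

set_option autoImplicit false

open MeasureTheory Filter Topology Finset Pool.Agent.H93.PF

namespace Pool.Agent.H4.PF

/-- The entropy of a transformation is not negative. -/
theorem ksEnt_nonneg {Y : Type} [MeasurableSpace Y] (ν : Measure Y) [IsProbabilityMeasure ν]
    (T : Y → Y) : (0 : EReal) ≤ ksEnt ν T := by
  have h1 : ∀ n : ℕ, Hn ν T (fun _ : Y => (0 : Fin 1)) n = 0 := by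
    intro n
    unfold Hn
    refine Finset.sum_eq_zero (fun w _ => ?_)
    have h2 : cyl T (fun _ : Y => (0 : Fin 1)) w = Set.univ := by
      ext y
      simp only [cyl, Set.mem_setOf_eq, Set.mem_univ, iff_true]
      intro i
      exact Subsingleton.elim _ _
    rw [h2, probReal_univ, Real.negMulLog_one]
  have h3 : entP ν T (fun _ : Y => (0 : Fin 1)) = 0 := by
    unfold entP
    simp only [h1, zero_div]
    exact limsup_const 0
  unfold ksEnt
  refine le_trans ?_ (le_iSup₂_of_le 1 (fun _ : Y => (0 : Fin 1))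
    (le_iSup_of_le measurable_const le_rfl))
  rw [h3]
  simp

theorem pf_CX2 (hGRO : T_GRO) (hENT : T_ENT) (hPA2 : T_PA2) (hPSQ : T_PSQ) (hDS2 : T_DS2)
    (hCAR : T_CAR) (hMSG : T_MSG) (hCOD : T_COD) (hFIB : T_FIB) (hENC : T_ENC) (hM1M : T_M1M)
    (hX2M : T_X2M) (hX2B : T_X2B) (hM1B : T_M1B) (hM1D : T_M1D) (hBKA : T_BKA)
    (hPJA : T_PJA) : T_CX2 := by
  have _ := hM1M
  intro Y _ _ ν _ T d β θ κ plus hE hap hβ hThr hks
  set h : ℝ := topEnt (PFS d β plus) with hh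
  obtain ⟨h', h1, h2⟩ := EReal.lt_iff_exists_real_btwn.1 hks
  have h2' : h' < h := by exact_mod_cast h2
  have hh0 : 0 < h' := by
    have h3 := lt_of_le_of_lt (ksEnt_nonneg ν T) h1
    exact_mod_cast h3
  set η : ℝ := (h - h') / 3 with hη
  have hη0 : 0 < η := by
    rw [hη]
    linarith
  set δ : ℕ → ℝ := fun j => η / (2 * 16 ^ (j + 1)) with hδ
  have hδ0 : ∀ j, 0 < δ j := fun j => by
    rw [hδ]
    positivity
  obtain ⟨K, P, π, hPm, hPπ, hsep, hP0, hPd⟩ := hPSQ Y ν T h' δ h1 hδ0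
  obtain ⟨n₀, hn₀⟩ := hDS2 Y ν T h' δ K P π hE hap hPm hPπ hP0 hPd
  have hF1 := (hGRO d (mm β plus) θ κ hThr).2.2
  have hF2 := hENT d β plus (by linarith) hF1
  obtain ⟨tl, Q₀, q, ht1, ht2, ht3, hq, hQ⟩ := hPA2 d (mm β plus) θ κ hThr h h' η β n₀ hh0.le
    hη0 (by rw [hη]; linarith) hβ hF2
  obtain ⟨D, hDm, hDp, hMk, hD0, hDj⟩ := hn₀ tl.L ht1 ht2
  have hq0 : 0 < q := by
    have h3 : (0 : ℝ) < q := lt_of_lt_of_le (Real.exp_pos _) hq
    exact_mod_cast h3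
  have hQ0 : ∀ g, (g = tl.L ∨ g = tl.L + 1) → 0 < Q₀ g := by
    intro g hg
    have h3 : (0 : ℝ) < Q₀ g := lt_of_lt_of_le (Real.exp_pos _) (hQ g hg).1
    exact_mod_cast h3
  obtain ⟨msg, hmsg1, hmsg2⟩ := hMSG tl.L (K 0) h' Q₀
    (fun r => {w : Fin r → Fin (K 0) | Real.exp (-h' * r) ≤ ν.real (cyl T (P 0) w)}) ht2
    hh0.le (fun g hg => (hQ g hg).1) (fun r => hCAR Y ν T (K 0) (P 0) h' r (hPm 0))
  obtain ⟨code, hcode1, hcode2⟩ := hCOD tl.L q η K π
    (fun j r => {w : Fin r → Fin (K (j + 1)) | 0 < ν.real (cyl T (P (j + 1)) w) ∧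
      Real.exp (-(δ j) * r) * ν.real (cyl T (P j) fun i => π j (w i)) ≤
        ν.real (cyl T (P (j + 1)) w)}) (by omega) hη0.le hq
    (fun j r v => hFIB Y ν T (K j) (K (j + 1)) (P j) (P (j + 1)) (π j) (δ j) r v (hPm (j + 1))
      (hPπ j))
  obtain ⟨enc, henc1, henc2⟩ := hENC d (mm β plus) tl (fun g => 2 * q * (2 * Q₀ g))
    (fun g hg => ⟨by have := hQ0 g hg; positivity, (hQ g hg).2⟩)
  have hX2B' := hX2B Y T tl.L D K P code msg q hcode1
  have hM1B' := hM1B Y T (K 0) tl.L (P 0) D Q₀ msg hMk hmsg1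
  refine ⟨⟨tl, D, hDm, hMk, fun g => 2 * q * (2 * Q₀ g), enc, henc1, henc2,
    ms2 T tl.L D P code msg (2 * q), hX2M Y T tl.L D K P code msg (2 * q) hPm hDm,
    fun y hy hyB => (hX2B' y).2.2 _ (hM1B' y hy hyB)⟩, ht3, hDp, ?_⟩
  intro y y' hy hy' hAg
  have hob : ob T (Bk T tl.L D 0) y = ob T (Bk T tl.L D 0) y' := hAg.1
  have hag : ∀ s ∈ ob T (Bk T tl.L D 0) y, co T tl.L D (zp T s y) = co T tl.L D (zp T s y') ∧
    ms2 T tl.L D P code msg (2 * q) (zp T s y) =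
      ms2 T tl.L D P code msg (2 * q) (zp T s y') := hAg.2
  have hBk := hBKA Y T tl.L D hMk y y' hy hy' hob (fun s hs => (hag s hs).1)
  have hxm : ∀ s ∈ ob T (Bk T tl.L D 0) y,
      xm T tl.L D P code (zp T s y) = xm T tl.L D P code (zp T s y') := by
    intro s hs
    rw [← (hX2B' (zp T s y)).1, ← (hX2B' (zp T s y')).1, (hag s hs).2]
  have hm1 : ∀ s ∈ ob T (Bk T tl.L D 0) y,
      ms1 T tl.L (P 0) (D 0) msg (zp T s y) = ms1 T tl.L (P 0) (D 0) msg (zp T s y') := by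
    intro s hs
    rw [← (hX2B' (zp T s y)).2.1, ← (hX2B' (zp T s y')).2.1, (hag s hs).2]
  have hP0' := hM1D Y T (K 0) tl.L (P 0) D
    (fun r => {w : Fin r → Fin (K 0) | Real.exp (-h' * r) ≤ ν.real (cyl T (P 0) w)}) msg hMk
    hD0 hmsg2 y y' hy hy' hob hm1
  have hPj := hPJA Y T tl.L D K P π code
    (fun j r => {w : Fin r → Fin (K (j + 1)) | 0 < ν.real (cyl T (P (j + 1)) w) ∧
      Real.exp (-(δ j) * r) * ν.real (cyl T (P j) fun i => π j (w i)) ≤
        ν.real (cyl T (P (j + 1)) w)}) hMk hPπ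
    (fun j y hy r hr hr' => by
      have h3 := hDj j y hy r hr hr'
      refine ⟨h3.1, ?_⟩
      have h4 : (fun i : Fin r => π j (P (j + 1) (zp T ((i : ℕ) : ℤ) y))) =
          fun i : Fin r => P j (zp T ((i : ℕ) : ℤ) y) := by
        funext i
        rw [hPπ j]
      show Real.exp (-(δ j) * r) * ν.real (cyl T (P j)
        (fun i : Fin r => π j (P (j + 1) (zp T ((i : ℕ) : ℤ) y)))) ≤ _
      rw [h4]
      exact h3.2)
    hcode2 y y' hy hy' hBk hxm hP0'
  apply hsep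
  intro j
  have h3 := hPj j 0
  rwa [zp_zero, zp_zero] at h3

end Pool.Agent.H4.PF
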