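import Pool.Agent.H93.PF.TargetsD
import Pool.Agent.H4.PF.RBI

/-!
# Power-free shifts: the sparse marker sets (rows DSQ and DS2)
-/

set_option autoImplicit false

open MeasureTheory Filter Topology Finset Pool.Agent.H93.PF

namespace Pool.Agent.H4.PF

section
variable {Y : Type} [MeasurableSpace Y]

theorem pn_meas (ν : Measure Y) {T : Y → Y} (hT : Measurable T) {K : ℕ} {P : Y → Fin K}
    (hP : Measurable P) (k : ℕ) : Measurable (fun y => pn ν T P k y) := by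
  have h1 : (fun y => pn ν T P k y) =
      (fun w : Fin k → Fin K => ν.real (cyl T P w)) ∘ nm T P k := rfl
  rw [h1]
  exact (measurable_of_finite _).comp (nm_meas hT hP k)

theorem pn_zp (ν : Measure Y) (T : Y ≃ᵐ Y) {K : ℕ} (P : Y → Fin K) (r : ℕ) (y : Y) :
    ν.real (cyl T P fun i : Fin r => P (zp T ((i : ℕ) : ℤ) y)) = pn ν T P r y := by
  unfold pn
  have h1 : (fun i : Fin r => P (zp T ((i : ℕ) : ℤ) y)) = fun i : Fin r => P (T^[(i : ℕ)] y) := by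
    funext i
    rw [zp_natCast]
  rw [h1]

/-- A set of positive measure meets some member of a covering sequence in positive measure. -/
theorem exists_pos_inter (ν : Measure Y) {D : Set Y} (hD : 0 < ν D) {G : ℕ → Set Y}
    (hG : ∀ᵐ y ∂ν, ∃ n, y ∈ G n) : ∃ n, 0 < ν (D ∩ G n) := by
  by_contra hc
  push Not at hc
  have h1 : ∀ᵐ y ∂ν, ∀ n, y ∉ D ∩ G n := by
    rw [ae_all_iff]
    intro n
    exact measure_eq_zero_iff_ae_notMem.1 (le_antisymm (hc n) zero_le)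
  have h2 : ∀ᵐ y ∂ν, y ∉ D := by
    filter_upwards [h1, hG] with y h3 h4 h5
    obtain ⟨n, hn⟩ := h4
    exact h3 n ⟨h5, hn⟩
  exact hD.ne' (measure_eq_zero_iff_ae_notMem.2 h2)

theorem exists_seq (hMAR : T_MAR) [StandardBorelSpace Y] (ν : Measure Y)
    [IsProbabilityMeasure ν] (T : Y ≃ᵐ Y) (hap : ∀ᵐ y ∂ν, ∀ n : ℕ, 0 < n → T^[n] y ≠ y)
    (G : ℕ → ℕ → Set Y) (hGm : ∀ j n, MeasurableSet (G j n))
    (hG : ∀ j, ∀ᵐ y ∂ν, ∃ n, y ∈ G j n) :
    ∃ n₀ : ℕ, ∀ L : ℕ, ∃ (D : ℕ → Set Y) (m : ℕ → ℕ), (∀ k, MeasurableSet (D k)) ∧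
      (∀ k, 0 < ν (D k)) ∧ (∀ k, D (k + 1) ⊆ D k) ∧ D 0 ⊆ G 0 n₀ ∧
      (∀ y ∈ D 0, ∀ i : ℕ, 0 < i → i < L ^ 2 → zp T (i : ℤ) y ∉ D 0) ∧
      (∀ k, D (k + 1) ⊆ G (k + 1) (m k)) ∧
      ∀ k, ∀ y ∈ D (k + 1), ∀ i : ℕ, 0 < i → i < max (16 ^ (k + 1) * L) (m k) →
        zp T (i : ℤ) y ∉ D (k + 1) := by
  have hu : 0 < ν (Set.univ : Set Y) := by
    rw [measure_univ]
    exact one_pos
  obtain ⟨n₀, hn₀⟩ := exists_pos_inter ν hu (hG 0)
  rw [Set.univ_inter] at hn₀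
  refine ⟨n₀, fun L => ?_⟩
  obtain ⟨A, hA1, hA2, hA3, hA4⟩ := hMAR Y ν T (G 0 n₀) (L ^ 2) hap (hGm 0 n₀) hn₀
  have hstep : ∀ (k : ℕ) (s : {A : Set Y // MeasurableSet A ∧ 0 < ν A}),
      ∃ (s' : {A : Set Y // MeasurableSet A ∧ 0 < ν A}) (m : ℕ), s'.1 ⊆ s.1 ∧
        s'.1 ⊆ G (k + 1) m ∧ ∀ y ∈ s'.1, ∀ i : ℕ, 0 < i → i < max (16 ^ (k + 1) * L) m →
          zp T (i : ℤ) y ∉ s'.1 := by
    rintro k ⟨s, hs1, hs2⟩
    obtain ⟨m, hm⟩ := exists_pos_inter ν hs2 (hG (k + 1))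
    obtain ⟨B, hB1, hB2, hB3, hB4⟩ := hMAR Y ν T (s ∩ G (k + 1) m) (max (16 ^ (k + 1) * L) m)
      hap (hs1.inter (hGm (k + 1) m)) hm
    exact ⟨⟨B, hB2, hB3⟩, m, hB1.trans Set.inter_subset_left,
      hB1.trans Set.inter_subset_right, hB4⟩
  choose f m hf1 hf2 hf3 using hstep
  set E : ℕ → {A : Set Y // MeasurableSet A ∧ 0 < ν A} :=
    fun k => Nat.rec ⟨A, hA2, hA3⟩ (fun k s => f k s) k with hE
  have hE0 : (E 0).1 = A := rfl
  have hES : ∀ k, E (k + 1) = f k (E k) := fun k => rfl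
  refine ⟨fun k => (E k).1, fun k => m k (E k), fun k => (E k).2.1, fun k => (E k).2.2, ?_, ?_,
    ?_, ?_, ?_⟩
  · intro k
    show (E (k + 1)).1 ⊆ (E k).1
    rw [hES]
    exact hf1 k (E k)
  · exact hA1
  · exact hA4
  · intro k
    show (E (k + 1)).1 ⊆ _
    rw [hES]
    exact hf2 k (E k)
  · intro k
    show ∀ y ∈ (E (k + 1)).1, ∀ i : ℕ, 0 < i → i < max (16 ^ (k + 1) * L) (m k (E k)) →
      zp T (i : ℤ) y ∉ (E (k + 1)).1
    rw [hES]
    exact hf3 k (E k)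

/-- The set where the inequality holds from `n` on. -/
def Lo (ν : Measure Y) (T : Y → Y) {K : ℕ} (P : Y → Fin K) (h' : ℝ) (n : ℕ) : Set Y :=
  {y | ∀ r, n ≤ r → Real.exp (-h' * r) ≤ pn ν T P r y}

theorem Lo_meas (ν : Measure Y) {T : Y → Y} (hT : Measurable T) {K : ℕ} {P : Y → Fin K}
    (hP : Measurable P) (h' : ℝ) (n : ℕ) : MeasurableSet (Lo ν T P h' n) := by
  have h1 : Lo ν T P h' n = ⋂ r : ℕ, ⋂ _ : n ≤ r, {y | Real.exp (-h' * r) ≤ pn ν T P r y} := by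
    ext y
    simp [Lo]
  rw [h1]
  exact MeasurableSet.iInter fun r => MeasurableSet.iInter fun _ =>
    measurableSet_le measurable_const (pn_meas ν hT hP r)

/-- The set where the relative inequality holds from `n` on. -/
def Lr (ν : Measure Y) (T : Y → Y) {K K' : ℕ} (P : Y → Fin K) (P' : Y → Fin K') (δ : ℝ)
    (n : ℕ) : Set Y :=
  {y | ∀ r, n ≤ r → 0 < pn ν T P' r y ∧ Real.exp (-δ * r) * pn ν T P r y ≤ pn ν T P' r y}

theorem Lr_meas (ν : Measure Y) {T : Y → Y} (hT : Measurable T) {K K' : ℕ} {P : Y → Fin K}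
    {P' : Y → Fin K'} (hP : Measurable P) (hP' : Measurable P') (δ : ℝ) (n : ℕ) :
    MeasurableSet (Lr ν T P P' δ n) := by
  have h1 : Lr ν T P P' δ n = ⋂ r : ℕ, ⋂ _ : n ≤ r, ({y | 0 < pn ν T P' r y} ∩
      {y | Real.exp (-δ * r) * pn ν T P r y ≤ pn ν T P' r y}) := by
    ext y
    simp [Lr]
  rw [h1]
  exact MeasurableSet.iInter fun r => MeasurableSet.iInter fun _ =>
    (measurableSet_lt measurable_const (pn_meas ν hT hP' r)).inter
      (measurableSet_le ((pn_meas ν hT hP r).const_mul _) (pn_meas ν hT hP' r))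

end

theorem pf_DSQ (hSMU : T_SMU) (hMAR : T_MAR) : T_DSQ := by
  intro Y _ _ ν _ T K P h' hE hap hP hent
  obtain ⟨n₀, hn₀⟩ := exists_seq hMAR ν T hap
    (fun j n => if j = 0 then Lo ν T P h' n else Set.univ)
    (fun j n => by
      by_cases hj : j = 0
      · simp only [hj, if_true]
        exact Lo_meas ν T.measurable hP h' n
      · simp only [hj, if_false]
        exact MeasurableSet.univ)
    (fun j => by
      by_cases hj : j = 0
      · simp only [hj, if_true]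
        filter_upwards [hSMU Y ν T K P h' hE hP hent] with y hy
        obtain ⟨n, hn⟩ := eventually_atTop.1 hy
        exact ⟨n, fun r hr => hn r hr⟩
      · simp only [hj, if_false]
        exact Eventually.of_forall (fun y => ⟨0, Set.mem_univ y⟩))
  refine ⟨n₀, fun L hL hL2 => ?_⟩
  obtain ⟨D, m, hD1, hD2, hD3, hD4, hD5, hD6, hD7⟩ := hn₀ L
  refine ⟨D, hD1, hD2, ⟨hL2, hD3, hD5, fun k y hy i hi hi' =>
    hD7 k y hy i hi (lt_of_lt_of_le hi' (le_max_left _ _))⟩, ?_⟩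
  intro y hy r hr
  rw [pn_zp]
  have h1 : y ∈ Lo ν T P h' n₀ := by
    have h2 := hD4 hy
    simpa using h2
  have h3 : L ≤ L ^ 2 := by nlinarith
  exact h1 r (by omega)

theorem pf_DS2 (hSMU : T_SMU) (hRSM : T_RSM) (hMAR : T_MAR) : T_DS2 := by
  intro Y _ _ ν _ T h' δ K P π hE hap hP hPπ hent hentd
  obtain ⟨n₀, hn₀⟩ := exists_seq hMAR ν T hap
    (fun j n => match j with
      | 0 => Lo ν T (P 0) h' n
      | j + 1 => Lr ν T (P j) (P (j + 1)) (δ j) n)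
    (fun j n => by
      cases j with
      | zero => exact Lo_meas ν T.measurable (hP 0) h' n
      | succ j => exact Lr_meas ν T.measurable (hP j) (hP (j + 1)) (δ j) n)
    (fun j => by
      cases j with
      | zero =>
        filter_upwards [hSMU Y ν T (K 0) (P 0) h' hE (hP 0) hent] with y hy
        obtain ⟨n, hn⟩ := eventually_atTop.1 hy
        exact ⟨n, fun r hr => hn r hr⟩
      | succ j =>
        filter_upwards [hRSM Y ν T (K j) (K (j + 1)) (P j) (P (j + 1)) (π j) (δ j) hE (hP (j + 1))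
          (hPπ j) (hentd j)] with y hy
        obtain ⟨n, hn⟩ := eventually_atTop.1 hy
        exact ⟨n, fun r hr => hn r hr⟩)
  refine ⟨n₀, fun L hL hL2 => ?_⟩
  obtain ⟨D, m, hD1, hD2, hD3, hD4, hD5, hD6, hD7⟩ := hn₀ L
  refine ⟨D, hD1, hD2, ⟨hL2, hD3, hD5, fun k y hy i hi hi' =>
    hD7 k y hy i hi (lt_of_lt_of_le hi' (le_max_left _ _))⟩, ?_, ?_⟩
  · intro y hy r hr
    rw [pn_zp]
    have h1 : y ∈ Lo ν T (P 0) h' n₀ := hD4 hy
    have h3 : L ≤ L ^ 2 := by nlinarith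
    exact h1 r (by omega)
  · intro j y hy r hr hr'
    rw [pn_zp, pn_zp]
    have h1 : y ∈ Lr ν T (P j) (P (j + 1)) (δ j) (m j) := hD6 j hy
    refine h1 r ?_
    by_contra hc
    push Not at hc
    exact hD7 j y hy r hr (lt_of_lt_of_le hc (le_max_right _ _)) hr'

end Pool.Agent.H4.PF
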