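import Pool.Agent.H93.PF.TargetsB

/-!
# Power-free shifts: words with a given factor, number of contents (rows FAC and HCN)
-/

set_option autoImplicit false

open MeasureTheory Filter Topology Finset Pool.Agent.H93.PF

namespace Pool.Agent.H4.PF

/-- the factor of length `l` which starts at `s` -/
def fac {A : Type} {n : ℕ} (w : Fin n → A) (s l : ℕ) (h : s + l ≤ n) : Fin l → A :=
  fun j => w ⟨s + j, by omega⟩

theorem gd_fac {A : Type} {m : ℕ → ℕ} {n : ℕ} {w : Fin n → A} (hw : Gd m w) (s l : ℕ)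
    (h : s + l ≤ n) : Gd m (fac w s l h) := by
  intro q i hq hi hper
  refine hw q (s + i) hq (by omega) ?_
  intro j hj h1 h2
  have h3 := hper (j - s) (by omega) (by omega) (by omega)
  unfold fac at h3
  have h4 : (⟨s + (j - s + q), by omega⟩ : Fin n) = ⟨j + q, hj⟩ := by
    apply Fin.ext
    show s + (j - s + q) = j + q
    omega
  have h5 : (⟨s + (j - s), by omega⟩ : Fin n) = ⟨j, by omega⟩ := by
    apply Fin.ext
    show s + (j - s) = j
    omega
  exact (congrArg w h4).symm.trans (h3.trans (congrArg w h5))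

theorem mem_FF {d : ℕ} {m : ℕ → ℕ} {n : ℕ} {w : Fin n → Fin d} : w ∈ FF d m n ↔ Gd m w := by
  unfold FF
  simp

theorem mem_GG {d : ℕ} {m : ℕ → ℕ} {n : ℕ} {w : Fin n → Fin d} : w ∈ GG d m n ↔ Ge m w := by
  unfold GG
  simp

theorem mem_HH {d : ℕ} {m : ℕ → ℕ} {R : ℕ} {M : Fin R → Fin d} {n : ℕ} {w : Fin n → Fin d} :
    w ∈ HH d m M n ↔ (Ge m w ∧ ∀ i, i + (R + 1) / 2 ≤ n →
      ¬ Occ w i M 0 ((R + 1) / 2) ∧ ¬ Occ w i M (R - (R + 1) / 2) ((R + 1) / 2)) := by
  unfold HH
  simp only [Finset.mem_filter, Finset.mem_univ, true_and]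

theorem pf_FAC (hGRO : T_GRO) (hMUL : T_MUL) : T_FAC := by
  classical
  intro d m θ κ hT n r i f hir
  have hθ : 0 < θ := by linarith [hT.th]
  have hκ := hT.ka
  set F := (FF d m n).filter (fun w => Occ w i f 0 r) with hF
  have h1 : F.card ≤ (FF d m i ×ˢ FF d m (n - i - r)).card := by
    refine Finset.card_le_card_of_injOn
      (fun w => (fac w 0 i (by omega), fac w (i + r) (n - i - r) (by omega))) ?_ ?_
    · intro w hw
      have hw' := Finset.mem_coe.1 hw
      rw [hF, Finset.mem_filter, mem_FF] at hw'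
      rw [Finset.mem_coe, Finset.mem_product, mem_FF, mem_FF]
      exact ⟨gd_fac hw'.1 0 i (by omega), gd_fac hw'.1 (i + r) (n - i - r) (by omega)⟩
    · intro w hw w' hw' h
      rw [Finset.mem_coe, hF, Finset.mem_filter] at hw hw'
      have ha := congrArg Prod.fst h
      have hb := congrArg Prod.snd h
      dsimp only at ha hb
      funext ⟨t, ht⟩
      rcases lt_or_ge t i with h2 | h2
      · have h3 := congrFun ha ⟨t, h2⟩
        unfold fac at h3
        have h4 : (⟨0 + t, by omega⟩ : Fin n) = ⟨t, ht⟩ := Fin.ext (Nat.zero_add t)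
        exact (congrArg w h4).symm.trans (h3.trans (congrArg w' h4))
      rcases lt_or_ge t (i + r) with h3 | h3
      · have h4 := hw.2 (t - i) (by omega) (by omega) (by omega)
        have h5 := hw'.2 (t - i) (by omega) (by omega) (by omega)
        have h6 : (⟨i + (t - i), by omega⟩ : Fin n) = ⟨t, ht⟩ := by
          apply Fin.ext
          show i + (t - i) = t
          omega
        exact (congrArg w h6).symm.trans (h4.trans (h5.symm.trans (congrArg w' h6)))
      · have h4 := congrFun hb ⟨t - (i + r), by omega⟩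
        unfold fac at h4
        have h5 : (⟨i + r + (t - (i + r)), by omega⟩ : Fin n) = ⟨t, ht⟩ := by
          apply Fin.ext
          show i + r + (t - (i + r)) = t
          omega
        exact (congrArg w h5).symm.trans (h4.trans (congrArg w' h5))
  rw [Finset.card_product] at h1
  have h2 : (F.card : ℝ) ≤ ((FF d m i).card : ℝ) * ((FF d m (n - i - r)).card : ℝ) := by
    exact_mod_cast h1
  have h3 := hMUL d m θ κ hT i (n - i - r)
  have h4 := (hGRO d m θ κ hT).2.1 (i + (n - i - r)) r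
  have h5 : i + (n - i - r) + r = n := by omega
  rw [h5] at h4
  have hκ2 : 0 < κ ^ 2 := by positivity
  have hθr : 0 < θ ^ r := by positivity
  have h6 : κ ^ 2 * (F.card : ℝ) ≤ ((FF d m (i + (n - i - r))).card : ℝ) :=
    (mul_le_mul_of_nonneg_left h2 hκ2.le).trans h3
  have h7 : θ ^ r * (κ ^ 2 * (F.card : ℝ)) ≤ ((FF d m n).card : ℝ) :=
    (mul_le_mul_of_nonneg_left h6 hθr.le).trans h4
  rw [mul_assoc, le_inv_mul_iff₀ hκ2, le_inv_mul_iff₀ hθr]
  exact h7

theorem occ_iff {d n R : ℕ} (w : Fin n → Fin d) (i : ℕ) (M : Fin R → Fin d) (a l : ℕ)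
    (h : a + l ≤ R) : Occ w i M a l → Occ w i (fac M a l h) 0 l := by
  intro ho j h1 h2 h3
  have h4 := ho j h1 (by omega) h3
  rw [h4]
  unfold fac
  congr 1
  apply Fin.ext
  show a + j = a + (0 + j)
  omega

theorem pf_HCN (hGBD : T_GBD) (hFAC : T_FAC) : T_HCN := by
  classical
  intro d m θ κ hT R M n hR hn
  set ρ := (R + 1) / 2 with hρ
  have hρR : ρ ≤ R := by omega
  set a : ℝ := ((FF d m n).card : ℝ) with ha
  set c : ℝ := (κ ^ 2)⁻¹ * (θ ^ ρ)⁻¹ with hc
  set I := (range (n + 1)).filter (fun i => i + ρ ≤ n) with hI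
  set F1 : ℕ → Finset (Fin n → Fin d) := fun i => (FF d m n).filter
    (fun w => Occ w i (fac M 0 ρ (by omega)) 0 ρ) with hF1
  set F2 : ℕ → Finset (Fin n → Fin d) := fun i => (FF d m n).filter
    (fun w => Occ w i (fac M (R - ρ) ρ (by omega)) 0 ρ) with hF2
  have hsub : GG d m n ⊆ HH d m M n ∪ (I.biUnion F1 ∪ I.biUnion F2) := by
    intro w hw
    rw [mem_GG] at hw
    rw [Finset.mem_union]
    by_cases hh : w ∈ HH d m M n
    · exact Or.inl hh
    · right
      rw [mem_HH] at hh
      push Not at hh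
      obtain ⟨i, hi, hi'⟩ := hh hw
      rw [Finset.mem_union, Finset.mem_biUnion, Finset.mem_biUnion]
      have hiI : i ∈ I := by
        rw [hI, Finset.mem_filter, Finset.mem_range]
        omega
      by_cases h1 : Occ w i M 0 ρ
      · left
        refine ⟨i, hiI, ?_⟩
        rw [hF1, Finset.mem_filter, mem_FF]
        exact ⟨hw.1, occ_iff w i M 0 ρ _ h1⟩
      · right
        refine ⟨i, hiI, ?_⟩
        rw [hF2, Finset.mem_filter, mem_FF]
        exact ⟨hw.1, occ_iff w i M (R - ρ) ρ _ (hi' h1)⟩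
  have hIc : (I.card : ℝ) ≤ (n : ℝ) + 1 := by
    have h1 : I.card ≤ n + 1 := by
      have h2 := Finset.card_filter_le (range (n + 1)) (fun i => i + ρ ≤ n)
      rw [Finset.card_range] at h2
      exact h2
    exact_mod_cast h1
  have hc0 : 0 ≤ c := by
    have := hT.ka
    have := hT.th
    positivity
  have ha0 : 0 ≤ a := Nat.cast_nonneg _
  have hb1 : ((I.biUnion F1).card : ℝ) ≤ ((n : ℝ) + 1) * (c * a) := by
    have h1 : ((I.biUnion F1).card : ℝ) ≤ ∑ i ∈ I, ((F1 i).card : ℝ) := by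
      exact_mod_cast Finset.card_biUnion_le
    refine h1.trans ?_
    have h2 : ∑ i ∈ I, ((F1 i).card : ℝ) ≤ ∑ i ∈ I, c * a := by
      refine Finset.sum_le_sum (fun i hi => ?_)
      rw [hI, Finset.mem_filter] at hi
      exact hFAC d m θ κ hT n ρ i _ hi.2
    refine h2.trans ?_
    rw [Finset.sum_const, nsmul_eq_mul]
    exact mul_le_mul_of_nonneg_right hIc (mul_nonneg hc0 ha0)
  have hb2 : ((I.biUnion F2).card : ℝ) ≤ ((n : ℝ) + 1) * (c * a) := by
    have h1 : ((I.biUnion F2).card : ℝ) ≤ ∑ i ∈ I, ((F2 i).card : ℝ) := by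
      exact_mod_cast Finset.card_biUnion_le
    refine h1.trans ?_
    have h2 : ∑ i ∈ I, ((F2 i).card : ℝ) ≤ ∑ i ∈ I, c * a := by
      refine Finset.sum_le_sum (fun i hi => ?_)
      rw [hI, Finset.mem_filter] at hi
      exact hFAC d m θ κ hT n ρ i _ hi.2
    refine h2.trans ?_
    rw [Finset.sum_const, nsmul_eq_mul]
    exact mul_le_mul_of_nonneg_right hIc (mul_nonneg hc0 ha0)
  have h3 : ((GG d m n).card : ℝ) ≤ ((HH d m M n).card : ℝ) +
      (((I.biUnion F1).card : ℝ) + ((I.biUnion F2).card : ℝ)) := by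
    have h4 := (Finset.card_le_card hsub).trans ((Finset.card_union_le _ _).trans
      (Nat.add_le_add_left (Finset.card_union_le _ _) _))
    exact_mod_cast h4
  have h4 := hGBD d m θ κ hT n
  have h5 : 2 * ((n : ℝ) + 1) * c * a ≤ κ / 2 * a := mul_le_mul_of_nonneg_right hn ha0
  have h6 : κ * a ≤ ((GG d m n).card : ℝ) := h4
  linarith

end Pool.Agent.H4.PF
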