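import Pool.Agent.H93.PF.TargetsB

/-!
# Power-free shifts: the tiles in a periodic interval (row INV)
-/

set_option autoImplicit false

open MeasureTheory Filter Topology Finset Pool.Agent.H93.PF

namespace Pool.Agent.H4.PF

theorem pf_INV (hOCC : T_OCC) : T_INV := by
  intro d m c B z hT q a b hper
  have h1 : ∀ j : ℤ, a ≤ j → j + q + c.R ≤ b → (j ∈ B ↔ j + q ∈ B) := by
    intro j ha hb
    constructor
    · intro hj
      apply hOCC d m c B z hT
      intro i
      have hi := i.isLt
      have h2 := hper (j + ((i : ℕ) : ℤ)) (by omega) (by omega)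
      rw [hT.mark j hj i] at h2
      rw [← h2]
      congr 1
      ring
    · intro hj
      apply hOCC d m c B z hT
      intro i
      have hi := i.isLt
      have h2 := hper (j + ((i : ℕ) : ℤ)) (by omega) (by omega)
      rw [← h2, ← hT.mark _ hj i]
      congr 1
      ring
  refine ⟨h1, ?_⟩
  intro j hj g ha hN hb
  have hR := c.R0
  obtain ⟨hg0, hjg, hno⟩ := hN
  refine ⟨(h1 j ha (by omega)).1 hj, ⟨hg0, ?_, ?_⟩, ?_⟩
  · have h2 := (h1 (j + g) (by omega) (by omega)).1 hjg
    have h3 : j + (q : ℤ) + g = j + g + q := by ring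
    rw [h3]
    exact h2
  · intro i hi1 hi2 hi3
    have h2 := (h1 (i - q) (by omega) (by omega)).2 (by
      have h3 : i - (q : ℤ) + q = i := by ring
      rw [h3]
      exact hi3)
    exact hno (i - q) (by omega) (by omega) h2
  · funext i
    have hi := i.isLt
    unfold win
    have h2 := hper (j + c.R + ((i : ℕ) : ℤ)) (by omega) (by omega)
    rw [← h2]
    congr 1
    ring

end Pool.Agent.H4.PF
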