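import Pool.Agent.H93.PF.TargetsD

/-!
# Power-free shifts: measurability of the marker sets and of the colours (row MES)
-/

set_option autoImplicit false

open MeasureTheory Filter Topology Finset Pool.Agent.H93.PF

namespace Pool.Agent.H4.PF

section
variable {Y : Type} [MeasurableSpace Y]

theorem sInf_meas {p : ℕ → Y → Prop} (hp : ∀ a, MeasurableSet {y | p a y}) :
    Measurable (fun y => sInf {a : ℕ | p a y}) := by
  classical
  apply measurable_to_countable'
  intro n
  have h1 : (fun y => sInf {a : ℕ | p a y}) ⁻¹' {n} =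
      ({y | p n y} ∩ ⋂ j : ℕ, ⋂ _ : j < n, {y | p j y}ᶜ) ∪
        (if n = 0 then ⋂ a : ℕ, {y | p a y}ᶜ else ∅) := by
    ext y
    simp only [Set.mem_preimage, Set.mem_singleton_iff, Set.mem_union, Set.mem_inter_iff,
      Set.mem_setOf_eq, Set.mem_iInter, Set.mem_compl_iff]
    constructor
    · intro h
      by_cases hne : {a : ℕ | p a y}.Nonempty
      · left
        have h2 := Nat.sInf_mem hne
        rw [h] at h2
        refine ⟨h2, fun j hj hj' => ?_⟩
        have h3 := Nat.sInf_le (s := {a : ℕ | p a y}) (m := j) hj'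
        omega
      · right
        rw [Set.not_nonempty_iff_eq_empty] at hne
        rw [hne, Nat.sInf_empty] at h
        rw [if_pos h.symm]
        simp only [Set.mem_iInter, Set.mem_compl_iff, Set.mem_setOf_eq]
        intro a ha
        have h4 : a ∈ {a : ℕ | p a y} := ha
        rw [hne] at h4
        exact h4
    · rintro (⟨h2, h3⟩ | h2)
      · apply le_antisymm (Nat.sInf_le h2)
        by_contra hc
        push Not at hc
        exact h3 _ hc (Nat.sInf_mem (s := {a : ℕ | p a y}) ⟨n, h2⟩)
      · by_cases hn : n = 0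
        · rw [if_pos hn] at h2
          simp only [Set.mem_iInter, Set.mem_compl_iff, Set.mem_setOf_eq] at h2
          have h3 : {a : ℕ | p a y} = ∅ := by
            ext a
            simp only [Set.mem_setOf_eq, Set.mem_empty_iff_false, iff_false]
            exact h2 a
          rw [h3, Nat.sInf_empty, hn]
        · rw [if_neg hn] at h2
          exact absurd h2 (Set.notMem_empty y)
  rw [h1]
  refine MeasurableSet.union ((hp n).inter (MeasurableSet.iInter fun j =>
    MeasurableSet.iInter fun _ => (hp j).compl)) ?_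
  split_ifs
  · exact MeasurableSet.iInter fun a => (hp a).compl
  · exact MeasurableSet.empty

theorem la_meas (T : Y ≃ᵐ Y) {S : Set Y} (hS : MeasurableSet S) : Measurable (la T S) :=
  sInf_meas (p := fun a y => zp T (-(a : ℤ)) y ∈ S) (fun a => measurable_zp T _ hS)

theorem na_meas (T : Y ≃ᵐ Y) {S : Set Y} (hS : MeasurableSet S) : Measurable (na T S) := by
  refine sInf_meas (p := fun b y => 1 ≤ b ∧ zp T (b : ℤ) y ∈ S) (fun b => ?_)
  by_cases hb : 1 ≤ b
  · simp only [hb, true_and]
    exact measurable_zp T _ hS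
  · simp only [hb, false_and]
    exact MeasurableSet.empty

theorem pa_meas (T : Y ≃ᵐ Y) {S : Set Y} (hS : MeasurableSet S) : Measurable (pa T S) := by
  refine sInf_meas (p := fun b y => 1 ≤ b ∧ zp T (-(b : ℤ)) y ∈ S) (fun b => ?_)
  by_cases hb : 1 ≤ b
  · simp only [hb, true_and]
    exact measurable_zp T _ hS
  · simp only [hb, false_and]
    exact MeasurableSet.empty

theorem Bk_meas (T : Y ≃ᵐ Y) (L : ℕ) (D : ℕ → Set Y) (hD : ∀ k, MeasurableSet (D k)) (k : ℕ) :
    MeasurableSet (Bk T L D k) := by
  induction k with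
  | zero =>
    have h1 : Measurable (fun y => (la T (D 0) y, na T (D 0) y)) :=
      (la_meas T (hD 0)).prodMk (na_meas T (hD 0))
    have h2 : MeasurableSet {x : ℕ × ℕ | ∃ i, i < nt L (x.1 + x.2) ∧
      x.1 = tau L (x.1 + x.2) i} := MeasurableSet.of_discrete
    exact h1 h2
  | succ k ih =>
    have h1 : Measurable (fun y => (la T (D (k + 1)) y, pa T (Bk T L D k) y,
        na T (D (k + 1)) y)) :=
      (la_meas T (hD (k + 1))).prodMk ((pa_meas T ih).prodMk (na_meas T (hD (k + 1))))
    have h2 : MeasurableSet {x : ℕ × ℕ × ℕ | ∃ i : ℕ, i * (16 ^ (k + 1) * L) ≤ x.1 ∧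
      x.1 < x.2.1 + i * (16 ^ (k + 1) * L) ∧
      (i + 1) * (16 ^ (k + 1) * L) ≤ x.1 + x.2.2} := MeasurableSet.of_discrete
    exact ih.inter (h1 h2)

/-- A family of measurable functions evaluated at a measurable index. -/
theorem meas_index {X : Type*} [MeasurableSpace X] {g : ℕ → Y → X} (hg : ∀ n, Measurable (g n))
    {f : Y → ℕ} (hf : Measurable f) : Measurable (fun y => g (f y) y) := by
  have h1 : Measurable (fun x : ℕ × Y => g x.1 x.2) :=
    measurable_from_prod_countable_right (fun n => hg n)
  exact h1.comp (hf.prodMk measurable_id)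

theorem lv_meas (T : Y ≃ᵐ Y) (L : ℕ) (D : ℕ → Set Y) (hD : ∀ k, MeasurableSet (D k)) :
    Measurable (lv T L D) :=
  sInf_meas (p := fun k y => y ∉ Bk T L D (k + 1)) (fun k => (Bk_meas T L D hD (k + 1)).compl)

open Classical in
/-- Counting visits over a finite set of times which depends on the time since the last
visit. -/
theorem cnt_meas (T : Y ≃ᵐ Y) {S S' : Set Y} (hS : MeasurableSet S) (hS' : MeasurableSet S')
    (s : ℕ → Finset ℤ) (c : ℤ → ℤ) : Measurable (fun y => ((s (la T S' y)).filter
      fun j : ℤ => zp T (c j) y ∈ S).card) := by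
  apply meas_index (g := fun m y => ((s m).filter
      fun j : ℤ => zp T (c j) y ∈ S).card) _ (la_meas T hS')
  intro m
  simp only [Finset.card_filter]
  refine Finset.measurable_sum _ (fun j _ => ?_)
  exact Measurable.ite (measurable_zp T _ hS) measurable_const measurable_const

open Classical in
/-- the index for the level `l` -/
noncomputable def ixl (T : Y ≃ᵐ Y) (L : ℕ) (D : ℕ → Set Y) (l : ℕ) (y : Y) : ℕ :=
  (((fun m : ℕ => (do let a ← range m; pure (a : ℤ) : Finset ℤ))
    (la T (Bk T L D (l + 1)) y)).filter fun j : ℤ => zp T (-j) y ∈ Bk T L D l).card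

open Classical in
theorem ix_meas (T : Y ≃ᵐ Y) (L : ℕ) (D : ℕ → Set Y) (hD : ∀ k, MeasurableSet (D k)) :
    Measurable (ix T L D) := by
  have h0 : ix T L D = fun y => ixl T L D (lv T L D y) y := rfl
  rw [h0]
  apply meas_index _ (lv_meas T L D hD)
  intro l
  exact cnt_meas T (Bk_meas T L D hD l) (Bk_meas T L D hD (l + 1))
    (fun m : ℕ => (do let a ← range m; pure (a : ℤ) : Finset ℤ)) (fun j => -j)

end

theorem pf_MES : T_MES := by
  intro Y _ T
  refine ⟨fun S hS => ⟨la_meas T hS, na_meas T hS, pa_meas T hS⟩, fun L D hD =>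
    ⟨Bk_meas T L D hD, ?_⟩⟩
  have h1 : Measurable (fun x : ℕ × ℕ => (x.1 % 3, min x.2 39)) := measurable_of_countable _
  exact h1.comp ((lv_meas T L D hD).prodMk (ix_meas T L D hD))

end Pool.Agent.H4.PF
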