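import Pool.Agent.H93.PF.TargetsB

/-!
# Power-free shifts: choice of the parameters of the tilings (row PAR)
-/

set_option autoImplicit false

open MeasureTheory Filter Topology Finset Pool.Agent.H93.PF

namespace Pool.Agent.H4.PF

theorem exp_big (b C : ℝ) (hb : 0 < b) : ∃ L₁ : ℕ, ∀ L : ℕ, L₁ ≤ L →
    C * ((L : ℝ) + 2) ≤ Real.exp (b * L - 1) := by
  obtain ⟨N, hN⟩ := exists_nat_gt (36 * |C| / b ^ 2)
  refine ⟨N + 1, fun L hL => ?_⟩
  have hL1 : (1 : ℝ) ≤ L := by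
    have h1 : 1 ≤ L := by omega
    exact_mod_cast h1
  have hLN : 36 * |C| / b ^ 2 ≤ (L : ℝ) := by
    have h1 : (N : ℝ) ≤ L := by
      have h2 : N ≤ L := by omega
      exact_mod_cast h2
    linarith
  rw [div_le_iff₀ (by positivity)] at hLN
  have h2 : b * L / 2 + 1 ≤ Real.exp (b * L / 2) := Real.add_one_le_exp _
  have h3 : Real.exp (b * L) = Real.exp (b * L / 2) ^ 2 := by
    rw [← Real.exp_nat_mul]
    congr 1
    push_cast
    ring
  have hbL : 0 ≤ b * L / 2 := by positivity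
  have h4 : (b * L / 2) ^ 2 ≤ Real.exp (b * L) := by
    rw [h3]
    exact pow_le_pow_left₀ hbL (by linarith) 2
  have h5 : 9 * |C| * L ≤ (b * L / 2) ^ 2 := by
    have h6 : (b * L / 2) ^ 2 = (L * b ^ 2) * L / 4 := by ring
    rw [h6]
    have h7 : 36 * |C| * L ≤ (L * b ^ 2) * L := mul_le_mul_of_nonneg_right hLN (by linarith)
    linarith
  have h6 : C * ((L : ℝ) + 2) ≤ 3 * |C| * L := by
    have h7 : C * ((L : ℝ) + 2) ≤ |C| * ((L : ℝ) + 2) :=
      mul_le_mul_of_nonneg_right (le_abs_self C) (by linarith)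
    have h8 : |C| * ((L : ℝ) + 2) ≤ |C| * (3 * L) :=
      mul_le_mul_of_nonneg_left (by linarith) (abs_nonneg C)
    linarith
  have h7 : Real.exp (b * L) = Real.exp (b * L - 1) * Real.exp 1 := by
    rw [← Real.exp_add]
    congr 1
    ring
  have h8 : Real.exp 1 ≤ 3 := by
    have := Real.exp_one_lt_d9
    linarith
  have h9 : Real.exp (b * L) ≤ Real.exp (b * L - 1) * 3 := by
    rw [h7]
    exact mul_le_mul_of_nonneg_left h8 (Real.exp_pos _).le
  linarith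

theorem pf_PAR (hMEX : T_MEX) (hHCN : T_HCN) : T_PAR := by
  intro d m θ κ hT h h' β n₀ hh' hlt hβ hF
  have hh : 0 < h := lt_of_le_of_lt hh' hlt
  have hκ := hT.ka
  have hθ : 3 / 2 ≤ θ := hT.th
  obtain ⟨R₀, hR₀⟩ := hMEX d m θ κ hT
  set δ : ℝ := min (1 / 6) (min ((β - 4) / 2) ((h - h') / (2 * (h + 1)))) with hδ
  have hδ0 : 0 < δ := by
    rw [hδ]
    refine lt_min (by norm_num) (lt_min (by linarith) ?_)
    apply div_pos <;> linarith
  have hδ1 : δ ≤ 1 / 6 := min_le_left _ _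
  have hδ2 : δ ≤ (β - 4) / 2 := (min_le_right _ _).trans (min_le_left _ _)
  have hδ3 : δ ≤ (h - h') / (2 * (h + 1)) := (min_le_right _ _).trans (min_le_right _ _)
  have hδh : h * δ ≤ (h - h') / 2 := by
    have h1 : h * δ ≤ h * ((h - h') / (2 * (h + 1))) := mul_le_mul_of_nonneg_left hδ3 hh.le
    have h2 : h * ((h - h') / (2 * (h + 1))) = (h - h') / 2 * (h / (h + 1)) := by
      field_simp
    have h3 : h / (h + 1) ≤ 1 := by
      rw [div_le_one (by linarith)]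
      linarith
    have h4 : (h - h') / 2 * (h / (h + 1)) ≤ (h - h') / 2 * 1 :=
      mul_le_mul_of_nonneg_left h3 (by linarith)
    linarith
  set l : ℝ := Real.log (3 / 2) with hl
  have hl0 : 0 < l := Real.log_pos (by norm_num)
  have hl1 : l ≤ 1 := by
    have h1 := Real.log_le_sub_one_of_pos (show (0 : ℝ) < 3 / 2 by norm_num)
    rw [hl]
    linarith
  obtain ⟨L₁, hL₁⟩ := exp_big (l * δ / 2) (4 / κ ^ 3) (by positivity)
  obtain ⟨L₂, hL₂⟩ := exp_big ((h - h') / 2) (960 / κ) (by linarith)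
  obtain ⟨L₃, hL₃⟩ := exists_nat_gt (((R₀ : ℝ) + 2) / δ)
  obtain ⟨L₄, hL₄⟩ := exists_nat_gt (2 / (β - 4))
  set L : ℕ := n₀ + 2 + L₁ + L₂ + L₃ + L₄ with hL
  have hLR : (0 : ℝ) < L := by
    have : 0 < L := by omega
    exact_mod_cast this
  set R : ℕ := ⌊δ * L⌋₊ with hR
  have hRle : (R : ℝ) ≤ δ * L := Nat.floor_le (by positivity)
  have hRge : δ * L < R + 1 := Nat.lt_floor_add_one _
  have hL3 : ((R₀ : ℝ) + 2) < δ * L := by
    have h1 : (L₃ : ℝ) ≤ L := by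
      have h2 : L₃ ≤ L := by omega
      exact_mod_cast h2
    have h2 : ((R₀ : ℝ) + 2) / δ < L := lt_of_lt_of_le hL₃ h1
    rw [div_lt_iff₀ hδ0] at h2
    linarith
  have hR1 : R₀ + 1 ≤ R := by
    have h1 : ((R₀ : ℝ) + 1) < R := by linarith
    have h2 : (((R₀ + 1 : ℕ)) : ℝ) < R := by
      push_cast
      exact h1
    have h3 : R₀ + 1 < R := by exact_mod_cast h2
    omega
  have hR0 : 0 < R := by omega
  have h6R : 6 * R ≤ L := by
    have h1 : (6 : ℝ) * R ≤ L := by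
      have h2 : δ * L ≤ 1 / 6 * L := mul_le_mul_of_nonneg_right hδ1 hLR.le
      linarith
    exact_mod_cast h1
  have hRβ : (R : ℝ) + 1 ≤ (β - 4) * L := by
    have h1 : δ * L ≤ (β - 4) / 2 * L := mul_le_mul_of_nonneg_right hδ2 hLR.le
    have h2 : 2 / (β - 4) < L := by
      have h3 : (L₄ : ℝ) ≤ L := by
        have h4 : L₄ ≤ L := by omega
        exact_mod_cast h4
      linarith
    rw [div_lt_iff₀ (by linarith)] at h2
    linarith
  obtain ⟨M, hM1, hM2⟩ := hR₀ R (by omega)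
  refine ⟨⟨hT.four, R, L, hR0, h6R, M, hM1, hM2⟩, by show n₀ ≤ L; omega, by show 2 ≤ L; omega,
    hRβ, ?_⟩
  intro g hg
  show Real.exp (h' * g) ≤ (((HH d m M (g - R)).card / 240 : ℕ) : ℝ)
  have hgL : g = L ∨ g = L + 1 := hg
  have hgLn : L ≤ g := by omega
  have hgLR : (L : ℝ) ≤ g := by exact_mod_cast hgLn
  have hθρ : 4 / κ ^ 3 * ((L : ℝ) + 2) ≤ θ ^ ((R + 1) / 2) := by
    have h1 := hL₁ L (by omega)
    have h2 : l * δ / 2 * L - 1 ≤ (((R + 1) / 2 : ℕ) : ℝ) * l := by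
      have h3 : (R : ℝ) ≤ 2 * (((R + 1) / 2 : ℕ) : ℝ) := by
        have h4 : R ≤ 2 * ((R + 1) / 2) := by omega
        exact_mod_cast h4
      have h5 : (δ * L - 1) * l ≤ (2 * (((R + 1) / 2 : ℕ) : ℝ)) * l :=
        mul_le_mul_of_nonneg_right (by linarith) hl0.le
      nlinarith
    have h3 : Real.exp ((((R + 1) / 2 : ℕ) : ℝ) * l) = (3 / 2) ^ ((R + 1) / 2) := by
      rw [Real.exp_nat_mul, hl, Real.exp_log (by norm_num)]
    have h4 : ((3 : ℝ) / 2) ^ ((R + 1) / 2) ≤ θ ^ ((R + 1) / 2) :=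
      pow_le_pow_left₀ (by norm_num) hθ _
    refine h1.trans (((Real.exp_le_exp.2 h2).trans h3.le).trans h4)
  have hcond : 2 * (((g - R : ℕ) : ℝ) + 1) * ((κ ^ 2)⁻¹ * (θ ^ ((R + 1) / 2))⁻¹) ≤ κ / 2 := by
    have hθ0 : 0 < θ ^ ((R + 1) / 2) := by positivity
    have h1 : ((g - R : ℕ) : ℝ) + 1 ≤ (L : ℝ) + 2 := by
      have h2 : g - R + 1 ≤ L + 2 := by omega
      exact_mod_cast h2
    have h2 : 2 * (((g - R : ℕ) : ℝ) + 1) * ((κ ^ 2)⁻¹ * (θ ^ ((R + 1) / 2))⁻¹) =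
        2 * (((g - R : ℕ) : ℝ) + 1) * (κ ^ 2)⁻¹ / θ ^ ((R + 1) / 2) := by
      rw [div_eq_mul_inv]
      ring
    rw [h2, div_le_iff₀ hθ0]
    have h3 : 2 * (((g - R : ℕ) : ℝ) + 1) * (κ ^ 2)⁻¹ ≤ 2 * ((L : ℝ) + 2) * (κ ^ 2)⁻¹ := by
      gcongr
    have h4 : 2 * ((L : ℝ) + 2) * (κ ^ 2)⁻¹ = κ / 2 * (4 / κ ^ 3 * ((L : ℝ) + 2)) := by
      field_simp
      ring
    have h5 : κ / 2 * (4 / κ ^ 3 * ((L : ℝ) + 2)) ≤ κ / 2 * θ ^ ((R + 1) / 2) :=
      mul_le_mul_of_nonneg_left hθρ (by positivity)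
    linarith
  have hHH := hHCN d m θ κ hT R M (g - R) hR0 hcond
  have hFg := hF (g - R)
  have hgR : ((g - R : ℕ) : ℝ) = (g : ℝ) - R := by
    rw [Nat.cast_sub (by omega)]
  have hexp : 480 * Real.exp (h' * g) ≤ ((HH d m M (g - R)).card : ℝ) := by
    refine le_trans ?_ hHH
    have h1 : (h - h') / 2 * L - 1 + h' * g ≤ h * ((g - R : ℕ) : ℝ) := by
      rw [hgR]
      have h2 : h * R ≤ h * (δ * L) := mul_le_mul_of_nonneg_left hRle hh.le
      have h3 : h * δ * L ≤ (h - h') / 2 * L := mul_le_mul_of_nonneg_right hδh hLR.le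
      have h4 : (h - h') / 2 * L ≤ (h - h') / 2 * g :=
        mul_le_mul_of_nonneg_left hgLR (by linarith)
      nlinarith
    have h2 : Real.exp ((h - h') / 2 * L - 1) * Real.exp (h' * g) ≤
        Real.exp (h * ((g - R : ℕ) : ℝ)) := by
      rw [← Real.exp_add]
      exact Real.exp_le_exp.2 h1
    have h3 := hL₂ L (by omega)
    have h4 : 960 / κ ≤ Real.exp ((h - h') / 2 * L - 1) := by
      refine le_trans ?_ h3
      have h5 : 0 < 960 / κ := by positivity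
      nlinarith
    have h5 : 960 / κ * Real.exp (h' * g) ≤ ((FF d m (g - R)).card : ℝ) :=
      ((mul_le_mul_of_nonneg_right h4 (Real.exp_pos _).le).trans h2).trans hFg
    have h6 : κ / 2 * (960 / κ * Real.exp (h' * g)) = 480 * Real.exp (h' * g) := by
      field_simp
      ring
    rw [← h6]
    exact mul_le_mul_of_nonneg_left h5 (by positivity)
  have h1 : 1 ≤ Real.exp (h' * g) := by
    rw [← Real.exp_zero]
    exact Real.exp_le_exp.2 (by positivity)
  have h2 : 480 ≤ (HH d m M (g - R)).card := by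
    have h3 : (480 : ℝ) ≤ ((HH d m M (g - R)).card : ℝ) := by linarith
    exact_mod_cast h3
  have h3 : (HH d m M (g - R)).card ≤ 480 * ((HH d m M (g - R)).card / 240) := by omega
  have h4 : ((HH d m M (g - R)).card : ℝ) ≤
      480 * (((HH d m M (g - R)).card / 240 : ℕ) : ℝ) := by exact_mod_cast h3
  linarith

end Pool.Agent.H4.PF
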