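import Pool.Agent.H93.PF.TargetsD
import Pool.Agent.H4.PF.CAR

/-!
# Power-free shifts: the relative Borel-Cantelli argument (row RBC)
-/

set_option autoImplicit false

open MeasureTheory Filter Topology Finset Pool.Agent.H93.PF

namespace Pool.Agent.H4.PF

section
variable {Y : Type} [MeasurableSpace Y]

theorem sum_cyl_le (ν : Measure Y) [IsProbabilityMeasure ν] {T : Y → Y} (hT : Measurable T)
    {K : ℕ} {P : Y → Fin K} (hP : Measurable P) {r : ℕ} (F : Finset (Fin r → Fin K))
    (A : Set Y) (h : ∀ w ∈ F, cyl T P w ⊆ A) :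
    ∑ w ∈ F, ν.real (cyl T P w) ≤ ν.real A := by
  have h2 : ∑ w ∈ F, ν.real (cyl T P w) = ν.real (⋃ w ∈ F, cyl T P w) := by
    rw [measureReal_biUnion_finset]
    · intro w _ w' _ hww
      exact cyl_disj T P hww
    · exact fun w _ => cyl_meas hT hP w
  rw [h2]
  refine measureReal_mono ?_ (measure_ne_top ν A)
  intro y hy
  simp only [Set.mem_iUnion] at hy
  obtain ⟨w, hw, hy⟩ := hy
  exact h w hw hy

/-- ratio of the measures of a block -/
noncomputable def rt (ν : Measure Y) (T : Y → Y) {K K' : ℕ} (P : Y → Fin K) (P' : Y → Fin K')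
    (π : Fin K' → Fin K) {k : ℕ} (u : Fin k → Fin K') : ℝ :=
  ν.real (cyl T P' u) / ν.real (cyl T P fun j => π (u j))

theorem rt_nonneg (ν : Measure Y) (T : Y → Y) {K K' : ℕ} (P : Y → Fin K) (P' : Y → Fin K')
    (π : Fin K' → Fin K) {k : ℕ} (u : Fin k → Fin K') : 0 ≤ rt ν T P P' π u :=
  div_nonneg measureReal_nonneg measureReal_nonneg

theorem rt_sum (ν : Measure Y) [IsProbabilityMeasure ν] {T : Y → Y} (hT : Measurable T)
    {K K' : ℕ} (P : Y → Fin K) {P' : Y → Fin K'} (hP' : Measurable P')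
    (π : Fin K' → Fin K) (hπ : ∀ y, P y = π (P' y)) {k : ℕ} (v : Fin k → Fin K) :
    ∑ u ∈ univ.filter fun u : Fin k → Fin K' => (fun j => π (u j)) = v,
      rt ν T P P' π u ≤ 1 := by
  have h1 : ∑ u ∈ univ.filter (fun u : Fin k → Fin K' => (fun j => π (u j)) = v),
      rt ν T P P' π u = (∑ u ∈ univ.filter (fun u : Fin k → Fin K' => (fun j => π (u j)) = v),
      ν.real (cyl T P' u)) / ν.real (cyl T P v) := by
    rw [Finset.sum_div]
    refine Finset.sum_congr rfl (fun u hu => ?_)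
    unfold rt
    rw [(Finset.mem_filter.1 hu).2]
  rw [h1]
  refine div_le_one_of_le₀ ?_ measureReal_nonneg
  apply sum_cyl_le ν hT hP'
  intro u hu y hy i
  have h2 := congrFun (Finset.mem_filter.1 hu).2 i
  rw [hπ, hy i]
  exact h2

/-- the weight of a word -/
noncomputable def qr (ν : Measure Y) (T : Y → Y) {K K' : ℕ} (P : Y → Fin K) (P' : Y → Fin K')
    (π : Fin K' → Fin K) (k i n : ℕ) (h : i + (n - i) / k * k ≤ n) (w : Fin n → Fin K') : ℝ :=
  ((K' : ℝ) ^ (2 * k))⁻¹ * ∏ b : Fin ((n - i) / k),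
    rt ν T P P' π (fun j : Fin k => w ⟨i + b * k + j, idx h b.2 j.2⟩)

theorem qr_nm (ν : Measure Y) (T : Y → Y) {K K' : ℕ} (P : Y → Fin K) (P' : Y → Fin K')
    (π : Fin K' → Fin K) (hπ : ∀ y, P y = π (P' y)) (k i n : ℕ)
    (h : i + (n - i) / k * k ≤ n) (y : Y) :
    rw' ν T P P' k i n y = qr ν T P P' π k i n h (nm T P' n y) := by
  unfold rw' qr
  rw [Finset.prod_range]
  congr 1
  refine Finset.prod_congr rfl (fun b _ => ?_)
  have h1 : ∀ j : Fin k, P' (T^[(j : ℕ)] (T^[i + (b : ℕ) * k] y)) =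
      nm T P' n y ⟨i + b * k + j, idx h b.2 j.2⟩ := by
    intro j
    unfold nm
    rw [← Function.iterate_add_apply]
    congr 2
    show (j : ℕ) + (i + (b : ℕ) * k) = i + (b : ℕ) * k + j
    ring
  unfold rt pn
  have h2 : (fun j : Fin k => P' (T^[(j : ℕ)] (T^[i + (b : ℕ) * k] y))) =
      fun j : Fin k => nm T P' n y ⟨i + b * k + j, idx h b.2 j.2⟩ := funext h1
  have h3 : (fun j : Fin k => P (T^[(j : ℕ)] (T^[i + (b : ℕ) * k] y))) =
      fun j : Fin k => π (nm T P' n y ⟨i + b * k + j, idx h b.2 j.2⟩) := by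
    funext j
    rw [hπ, h1]
  rw [h2, h3]

theorem pn_nm (ν : Measure Y) (T : Y → Y) {K K' : ℕ} (P : Y → Fin K) (P' : Y → Fin K')
    (π : Fin K' → Fin K) (hπ : ∀ y, P y = π (P' y)) (n : ℕ) (y : Y) :
    pn ν T P n y = ν.real (cyl T P fun j => π (nm T P' n y j)) := by
  unfold pn nm
  congr 2
  funext j
  exact hπ _

/-- the exceptional set -/
def Bad (ν : Measure Y) (T : Y → Y) {K K' : ℕ} (P : Y → Fin K) (P' : Y → Fin K') (k i : ℕ)
    (ε : ℝ) (n : ℕ) : Set Y :=
  {y | pn ν T P' n y < Real.exp (-ε * n) * pn ν T P n y * rw' ν T P P' k i n y}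

theorem bad_le (hRQS : T_RQS) (ν : Measure Y) [IsProbabilityMeasure ν] {T : Y → Y}
    (hT : Measurable T) {K K' : ℕ} (P : Y → Fin K) {P' : Y → Fin K'} (hP' : Measurable P')
    (π : Fin K' → Fin K) (hπ : ∀ y, P y = π (P' y)) {k i n : ℕ} (hk : 0 < k) (hi : i < k)
    (hn : k ≤ n) (ε : ℝ) :
    ν.real (Bad ν T P P' k i ε n) ≤ Real.exp (-ε * n) := by
  classical
  have hK' : 0 < K' := by
    obtain ⟨y⟩ : Nonempty Y := (inferInstance : (ae ν).NeBot).nonempty
    exact lt_of_le_of_lt (Nat.zero_le _) (P' y).2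
  have hmd := Nat.div_mul_le_self (n - i) k
  have h : i + (n - i) / k * k ≤ n := by omega
  have hlt : n - (n - i) / k * k ≤ 2 * k := by
    have h1 := Nat.lt_div_mul_add hk (a := n - i)
    omega
  have hPm : Measurable P := by
    have h1 : P = π ∘ P' := funext hπ
    rw [h1]
    exact (measurable_of_finite π).comp hP'
  set q : (Fin n → Fin K') → ℝ := qr ν T P P' π k i n h with hq
  have hq0 : ∀ w, 0 ≤ q w := fun w => by
    rw [hq]
    unfold qr
    exact mul_nonneg (by positivity) (Finset.prod_nonneg (fun b _ => rt_nonneg _ _ _ _ _ _))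
  have hqs : ∀ v : Fin n → Fin K,
      ∑ w ∈ univ.filter (fun w : Fin n → Fin K' => (fun j => π (w j)) = v), q w ≤ 1 := by
    intro v
    have h1 := hRQS K K' k i ((n - i) / k) n h π (rt ν T P P' π) (fun u => rt_nonneg _ _ _ _ _ _)
      (fun v => rt_sum ν hT P hP' π hπ v) v
    have h2 : ∑ w ∈ univ.filter (fun w : Fin n → Fin K' => (fun j => π (w j)) = v), q w =
        ((K' : ℝ) ^ (2 * k))⁻¹ *
        ∑ w ∈ univ.filter (fun w : Fin n → Fin K' => (fun j => π (w j)) = v),
          ∏ b : Fin ((n - i) / k), rt ν T P P' π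
            (fun j : Fin k => w ⟨i + b * k + j, idx h b.2 j.2⟩) := by
      rw [Finset.mul_sum]
      rfl
    rw [h2]
    have h3 : (K' : ℝ) ^ (n - (n - i) / k * k) ≤ (K' : ℝ) ^ (2 * k) :=
      pow_le_pow_right₀ (by exact_mod_cast hK') hlt
    have h4 : (0 : ℝ) < (K' : ℝ) ^ (2 * k) := by positivity
    rw [inv_mul_le_iff₀ h4, mul_one]
    exact h1.trans h3
  set W : Finset (Fin n → Fin K') := univ.filter (fun w => ν.real (cyl T P' w) <
    Real.exp (-ε * n) * ν.real (cyl T P fun j => π (w j)) * q w) with hW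
  have hsub : Bad ν T P P' k i ε n ⊆ ⋃ w ∈ W, cyl T P' w := by
    intro y hy
    simp only [Set.mem_iUnion]
    refine ⟨nm T P' n y, ?_, fun j => rfl⟩
    rw [hW, Finset.mem_filter]
    refine ⟨Finset.mem_univ _, ?_⟩
    have h1 : pn ν T P' n y < Real.exp (-ε * n) * pn ν T P n y * rw' ν T P P' k i n y := hy
    rw [qr_nm ν T P P' π hπ k i n h y, pn_nm ν T P P' π hπ n y] at h1
    exact h1
  calc ν.real (Bad ν T P P' k i ε n) ≤ ν.real (⋃ w ∈ W, cyl T P' w) :=
        measureReal_mono hsub (measure_ne_top ν _)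
    _ ≤ ∑ w ∈ W, ν.real (cyl T P' w) := measureReal_biUnion_finset_le _ _
    _ ≤ ∑ w ∈ W, Real.exp (-ε * n) * ν.real (cyl T P fun j => π (w j)) * q w :=
        Finset.sum_le_sum (fun w hw => (Finset.mem_filter.1 hw).2.le)
    _ ≤ ∑ w : Fin n → Fin K', Real.exp (-ε * n) * ν.real (cyl T P fun j => π (w j)) * q w :=
        Finset.sum_le_sum_of_subset_of_nonneg (Finset.subset_univ _) (fun w _ _ =>
          mul_nonneg (mul_nonneg (Real.exp_pos _).le measureReal_nonneg) (hq0 w))
    _ = ∑ v : Fin n → Fin K, ∑ w ∈ univ.filter (fun w : Fin n → Fin K' =>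
          (fun j => π (w j)) = v),
          Real.exp (-ε * n) * ν.real (cyl T P fun j => π (w j)) * q w :=
        (Finset.sum_fiberwise _ _ _).symm
    _ = ∑ v : Fin n → Fin K, Real.exp (-ε * n) * ν.real (cyl T P v) *
          ∑ w ∈ univ.filter (fun w : Fin n → Fin K' => (fun j => π (w j)) = v), q w := by
        refine Finset.sum_congr rfl (fun v _ => ?_)
        rw [Finset.mul_sum]
        refine Finset.sum_congr rfl (fun w hw => ?_)
        rw [(Finset.mem_filter.1 hw).2]
    _ ≤ ∑ v : Fin n → Fin K, Real.exp (-ε * n) * ν.real (cyl T P v) * 1 :=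
        Finset.sum_le_sum (fun v _ => mul_le_mul_of_nonneg_left (hqs v)
          (mul_nonneg (Real.exp_pos _).le measureReal_nonneg))
    _ = Real.exp (-ε * n) * ∑ v : Fin n → Fin K, ν.real (cyl T P v) := by
        rw [Finset.mul_sum]
        simp only [mul_one]
    _ ≤ Real.exp (-ε * n) * 1 := by
        refine mul_le_mul_of_nonneg_left ?_ (Real.exp_pos _).le
        have h1 := sum_cyl_le ν hT hPm (Finset.univ : Finset (Fin n → Fin K)) Set.univ
          (fun w _ => Set.subset_univ _)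
        rwa [probReal_univ] at h1
    _ = Real.exp (-ε * n) := mul_one _

end

theorem pf_RBC (hRQS : T_RQS) : T_RBC := by
  intro Y _ ν _ T K K' P P' π k ε _ hP' hπ hk hε
  have h1 : ∀ i : ℕ, ∀ᵐ y ∂ν, i < k → ∀ᶠ n : ℕ in atTop, y ∉ Bad ν T P P' k i ε (n + k) := by
    intro i
    by_cases hi : i < k
    · have hsum : (∑' n : ℕ, ν (Bad ν T P P' k i ε (n + k))) ≠ ⊤ := by
        have h2 : ∀ n : ℕ, ν (Bad ν T P P' k i ε (n + k)) ≤
            ENNReal.ofReal (Real.exp (-ε) ^ n) := by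
          intro n
          have h3 := bad_le hRQS ν T.measurable P hP' π hπ hk hi (Nat.le_add_left k n) ε
          rw [← ofReal_measureReal (measure_ne_top ν _)]
          refine ENNReal.ofReal_le_ofReal (h3.trans ?_)
          rw [← Real.exp_nat_mul]
          apply Real.exp_le_exp.2
          push_cast
          nlinarith [Nat.cast_nonneg (α := ℝ) k]
        have h4 : Summable (fun n : ℕ => Real.exp (-ε) ^ n) :=
          summable_geometric_of_lt_one (Real.exp_pos _).le (by
            rw [Real.exp_lt_one_iff]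
            linarith)
        exact ne_top_of_le_ne_top h4.tsum_ofReal_ne_top (ENNReal.tsum_le_tsum h2)
      filter_upwards [ae_eventually_notMem hsum] with y hy _
      exact hy
    · exact Eventually.of_forall (fun y h => absurd h hi)
  filter_upwards [ae_all_iff.2 h1] with y hy
  have h2 : ∀ᶠ n : ℕ in atTop, ∀ i ∈ Finset.range k, y ∉ Bad ν T P P' k i ε (n + k) := by
    rw [Filter.eventually_all_finset]
    intro i hi
    exact hy i (Finset.mem_range.1 hi)
  obtain ⟨N, hN⟩ := eventually_atTop.1 h2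
  refine eventually_atTop.2 ⟨N + k, fun n hn i hi => ?_⟩
  have h3 := hN (n - k) (by omega) i (Finset.mem_range.2 hi)
  have h4 : n - k + k = n := by omega
  rw [h4] at h3
  exact not_lt.1 h3

end Pool.Agent.H4.PF
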