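import Pool.Agent.H93.PF.TargetsB

/-!
# Power-free shifts: the marker sets with the colours are a skeleton (row SKC)
-/

set_option autoImplicit false

open MeasureTheory Filter Topology Finset Pool.Agent.H93.PF

namespace Pool.Agent.H4.PF

theorem nn_pos (L : ℕ) (hL : 0 < L) (k : ℕ) : 0 < nn L k := by
  cases k with
  | zero => exact hL
  | succ k => simp only [nn]; positivity

/-- `c nn ≤ a < gg` implies `c ≤ 38`. -/
theorem cnt_le {L k c : ℕ} (hL : 0 < L) (h : c * nn L k < gg L (k + 1)) : c ≤ 38 := by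
  by_contra hc
  push Not at hc
  have h1 : 39 * nn L k ≤ c * nn L k := Nat.mul_le_mul_right _ hc
  cases k with
  | zero =>
    simp only [nn, gg] at h h1
    omega
  | succ k =>
    simp only [nn, gg] at h h1
    have h2 : 0 < 16 ^ k * L := by positivity
    have h3 : 39 * (14 * 16 ^ k * L) = 546 * (16 ^ k * L) := by ring
    have h4 : 2 * 16 ^ (k + 1 + 1) * L = 512 * (16 ^ k * L) := by ring
    omega

theorem pf_SKC (hLNB : T_LNB) (hBKF : T_BKF) (hCNT : T_CNT) (hIXA : T_IXA) : T_SKC := by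
  have _ := hLNB
  intro Y _ T L D hM y hR
  obtain ⟨hb1, hb2, hb3, hb4⟩ := hBKF Y T L D hM y hR
  have hL : 0 < L := lt_of_lt_of_le two_pos hM.two
  set B : ℕ → Set ℤ := fun k => ob T (Bk T L D k) y with hB
  have hnest : ∀ k, B (k + 1) ⊆ B k := by
    intro k s hs
    have h1 : zp T s y ∈ Bk T L D (k + 1) := hs
    exact h1.1
  have hlast : ∀ k, ∀ s ∈ B k, s ∉ B (k + 1) → ∃ u ∈ B (k + 1), u < s ∧
      ∀ j, u < j → j ≤ s → j ∉ B (k + 1) := by
    intro k s _ hs'
    obtain ⟨u, hu, hus, hm⟩ := exists_last (hb2 (k + 1)) s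
    have hne : u ≠ s := fun h => hs' (h ▸ hu)
    exact ⟨u, hu, lt_of_le_of_ne hus hne, fun j h1 h2 h3 => absurd (hm j h3 h2) (not_le.2 h1)⟩
  have hsep : ∀ k, ∀ t ∈ B k, ∀ u ∈ B k, t < u → t + (nn L k : ℤ) ≤ u := by
    intro k t ht u hu htu
    obtain ⟨g, hg1, hg2, hg3⟩ := hb3 k t ht
    by_contra hc
    push Not at hc
    exact hg3.2.2 u htu (by omega) hu
  have hco : ∀ k, ∀ s ∈ B k, s ∉ B (k + 1) → ∀ u ∈ B (k + 1), u < s →
      (∀ j, u < j → j ≤ s → j ∉ B (k + 1)) →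
      co T L D (zp T s y) = (k % 3, min (cnt (B k) u s) 39) ∧ cnt (B k) u s ≤ 38 := by
    intro k s hs hs' u hu hus hno
    obtain ⟨h1, h2⟩ := hIXA Y T L D y k s u hs hs' hu hus hno
    refine ⟨by rw [co, h1, h2], ?_⟩
    obtain ⟨g, hg1, hg2, hg3⟩ := hb3 (k + 1) u hu
    have h3 : s < u + (g : ℤ) := by
      by_contra hc
      push Not at hc
      exact hno (u + g) (by have := hg3.1; omega) hc hg3.2.1
    have h4 := (hCNT (B k) u).2.2.2 (nn L k) s (hsep k) (hnest k hu) hus.le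
    apply cnt_le (k := k) hL
    have h5 : ((cnt (B k) u s * nn L k : ℕ) : ℤ) < ((gg L (k + 1) : ℕ) : ℤ) := by
      push_cast
      omega
    exact_mod_cast h5
  refine ⟨hnest, hb2, hb3, ?_, ?_, ?_, ?_⟩
  · intro k s hs hs'
    obtain ⟨u, hu, hus, hno⟩ := hlast k s hs hs'
    show (co T L D (zp T s y)).1 = k % 3
    rw [(hco k s hs hs' u hu hus hno).1]
  · intro k s hs hs'
    obtain ⟨u, hu, hus, hno⟩ := hlast k s hs hs'
    show 1 ≤ (co T L D (zp T s y)).2
    obtain ⟨h1, h2⟩ := hco k s hs hs' u hu hus hno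
    have h3 := (hCNT (B k) u).2.2.1 s hus hs
    rw [h1]
    show 1 ≤ min (cnt (B k) u s) 39
    omega
  · intro k s g hs hg hs'
    show (co T L D (zp T (s + g) y)).2 = 1
    have hg0 := hg.1
    have hno : ∀ j, s < j → j ≤ s + g → j ∉ B (k + 1) := by
      intro j h1 h2 h3
      rcases eq_or_lt_of_le h2 with h4 | h4
      · exact hs' (h4 ▸ h3)
      · exact hg.2.2 j h1 h4 (hnest k h3)
    obtain ⟨h1, h2⟩ := hco k (s + g) hg.2.1 hs' s hs (by omega) hno
    have h3 := (hCNT (B k) s).1 s g le_rfl hg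
    have h4 := (hCNT (B k) s).2.1 s le_rfl
    rw [h1]
    show min (cnt (B k) s (s + g)) 39 = 1
    omega
  · intro k s g hs hs' hg hg'
    show (co T L D (zp T (s + g) y)).2 = (co T L D (zp T s y)).2 + 1
    have hg0 := hg.1
    obtain ⟨u, hu, hus, hno⟩ := hlast k s hs hs'
    have hno' : ∀ j, u < j → j ≤ s + g → j ∉ B (k + 1) := by
      intro j h1 h2 h3
      rcases le_or_gt j s with h5 | h5
      · exact hno j h1 h5 h3
      rcases eq_or_lt_of_le h2 with h4 | h4
      · exact hg' (h4 ▸ h3)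
      · exact hg.2.2 j h5 h4 (hnest k h3)
    obtain ⟨h1, h2⟩ := hco k s hs hs' u hu hus hno
    obtain ⟨h3, h4⟩ := hco k (s + g) hg.2.1 hg' u hu (by omega) hno'
    have h5 := (hCNT (B k) u).1 s g hus.le hg
    rw [h1, h3]
    show min (cnt (B k) u (s + g)) 39 = min (cnt (B k) u s) 39 + 1
    omega

end Pool.Agent.H4.PF
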