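import Pool.Agent.H93.PF.TargetsB

/-!
# Power-free shifts: no forbidden repetitions with small periods in tiled sequences (row SML)
-/

set_option autoImplicit false

open MeasureTheory Filter Topology Finset Pool.Agent.H93.PF

namespace Pool.Agent.H4.PF

theorem ge_pre {d : ℕ} {m : ℕ → ℕ} {z : ℤ → Fin d} {q : ℕ} {i e t : ℤ} {n : ℕ}
    {w : Fin n → Fin d} (hq : 0 < q) (hper : ∀ j : ℤ, i ≤ j → j + q < e → z (j + q) = z j)
    (hw : ∀ j : Fin n, z (t + ((j : ℕ) : ℤ)) = w j) (hG : Ge m w) :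
    n < pp m q ∨ ¬ (i ≤ t ∧ t + pp m q ≤ e) := by
  by_contra hc
  push Not at hc
  obtain ⟨h1, h2, h3⟩ := hc
  refine (hG.2 q hq h1).1 ?_
  intro j h _ h5
  rw [← hw ⟨j + q, h⟩, ← hw ⟨j, by omega⟩]
  have h6 := hper (t + j) (by omega) (by omega)
  have h7 : t + (j : ℤ) + q = t + (((⟨j + q, h⟩ : Fin n) : ℕ) : ℤ) := by
    push_cast
    ring
  rw [h7] at h6
  exact h6

theorem ge_suf {d : ℕ} {m : ℕ → ℕ} {z : ℤ → Fin d} {q : ℕ} {i e t : ℤ} {n : ℕ}
    {w : Fin n → Fin d} (hq : 0 < q) (hper : ∀ j : ℤ, i ≤ j → j + q < e → z (j + q) = z j)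
    (hw : ∀ j : Fin n, z (t + ((j : ℕ) : ℤ)) = w j) (hG : Ge m w) :
    n < pp m q ∨ ¬ (i ≤ t + n - pp m q ∧ t + n ≤ e) := by
  by_contra hc
  push Not at hc
  obtain ⟨h1, h2, h3⟩ := hc
  refine (hG.2 q hq h1).2 ?_
  intro j h _ h5
  rw [← hw ⟨j + q, h⟩, ← hw ⟨j, by omega⟩]
  have h6 := hper (t + j) (by omega) (by omega)
  have h7 : t + (j : ℤ) + q = t + (((⟨j + q, h⟩ : Fin n) : ℕ) : ℤ) := by
    push_cast
    ring
  rw [h7] at h6
  exact h6

theorem ge_ful {d : ℕ} {m : ℕ → ℕ} {z : ℤ → Fin d} {q : ℕ} {i e t : ℤ} {n : ℕ}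
    {w : Fin n → Fin d} (hq : 0 < q) (hper : ∀ j : ℤ, i ≤ j → j + q < e → z (j + q) = z j)
    (hw : ∀ j : Fin n, z (t + ((j : ℕ) : ℤ)) = w j) (hG : Ge m w) (he : e = i + m q) :
    ¬ (t ≤ i ∧ e ≤ t + n) := by
  rintro ⟨h1, h2⟩
  refine hG.1 q (i - t).toNat hq (by omega) ?_
  intro j h h4 h5
  rw [← hw ⟨j + q, h⟩, ← hw ⟨j, by omega⟩]
  have h6 := hper (t + j) (by omega) (by omega)
  have h7 : t + (j : ℤ) + q = t + (((⟨j + q, h⟩ : Fin n) : ℕ) : ℤ) := by
    push_cast
    ring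
  rw [h7] at h6
  exact h6

theorem pf_SML (hOCC : T_OCC) : T_SML := by
  intro d m c B z hT q hq hqL i
  by_contra hcon
  push Not at hcon
  have hper : ∀ j : ℤ, i ≤ j → j + q < i + m q → z (j + q) = z j := fun j h1 h2 =>
    hcon j h1 h2
  have hmq := c.four q hq
  have hRL := c.RL
  have hR0 := c.R0
  have hpp : pp m q = (m q + 1) / 2 := rfl
  have hgap : ∀ s ∈ B, ∀ t ∈ B, s < t → s + (c.L : ℤ) ≤ t := by
    intro s hs t ht hst
    obtain ⟨g, hg, hN⟩ := hT.next s hs
    by_contra hc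
    push Not at hc
    exact hN.2.2 t hst (by omega) ht
  by_cases hA : ∃ s ∈ B, i ≤ s ∧ s + c.R ≤ i + m q
  · obtain ⟨s, hs, h1, h2⟩ := hA
    have h3 : ¬ (s + q + c.R ≤ i + m q) := by
      intro h4
      have h5 : s + (q : ℤ) ∈ B := by
        apply hOCC d m c B z hT
        intro j
        have hj := j.isLt
        have h6 := hper (s + ((j : ℕ) : ℤ)) (by omega) (by omega)
        rw [hT.mark s hs j] at h6
        rw [← h6]
        congr 1
        ring
      have := hgap s hs _ h5 (by omega)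
      omega
    have h4 : ¬ (i ≤ s - q) := by
      intro h4
      have h5 : s - (q : ℤ) ∈ B := by
        apply hOCC d m c B z hT
        intro j
        have hj := j.isLt
        have h6 := hper (s - q + ((j : ℕ) : ℤ)) (by omega) (by omega)
        rw [← h6, ← hT.mark s hs j]
        congr 1
        ring
      have := hgap _ h5 s hs (by omega)
      omega
    rcases ge_pre hq hper (hT.mark s hs) c.Mg with h5 | h5 <;> omega
  · push Not at hA
    obtain ⟨s, hs, hsi, hlast⟩ := exists_last hT.below i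
    obtain ⟨g, hg, hN⟩ := hT.next s hs
    have hN' := hN
    obtain ⟨hg0, hs', _⟩ := hN
    have hi' : i < s + g := by
      by_contra hc
      push Not at hc
      have := hlast _ hs' hc
      omega
    have he := hA _ hs' (by omega)
    have hu : ∀ j : Fin (g - c.R), z (s + c.R + ((j : ℕ) : ℤ)) =
        win z (s + c.R) (g - c.R) j := fun j => rfl
    have hHH := hT.cont s hs g hN'
    have hGu : Ge m (win z (s + c.R) (g - c.R)) := by
      classical
      unfold HH at hHH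
      simp only [Finset.mem_filter] at hHH
      exact hHH.2.1
    have hgR : ((g - c.R : ℕ) : ℤ) = g - c.R := by omega
    have a1 := ge_pre hq hper (hT.mark s hs) c.Mg
    have a2 := ge_suf hq hper (hT.mark s hs) c.Mg
    have a3 := ge_ful hq hper (hT.mark s hs) c.Mg rfl
    have b1 := ge_pre hq hper hu hGu
    have b2 := ge_suf hq hper hu hGu
    have b3 := ge_ful hq hper hu hGu rfl
    have c1 := ge_pre hq hper (hT.mark _ hs') c.Mg
    omega

end Pool.Agent.H4.PF
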