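import Pool.Agent.H93.PF.TargetsD

/-!
# Power-free shifts: existence of the data of the coding (row CXE)
-/

set_option autoImplicit false

open MeasureTheory Filter Topology Finset Pool.Agent.H93.PF

namespace Pool.Agent.H4.PF

theorem pf_CXE (hGRO : T_GRO) (hENT : T_ENT) (hPAR : T_PAR) (hDSQ : T_DSQ) (hCAR : T_CAR)
    (hMSG : T_MSG) (hENC : T_ENC) (hM1M : T_M1M) (hM1B : T_M1B) (hM1D : T_M1D) : T_CXE := by
  intro Y _ _ ν _ T K P d β θ κ plus hE hap hPm hβ hThr hks he0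
  set h : ℝ := topEnt (PFS d β plus) with hh
  obtain ⟨h', h1, h2⟩ := exists_between hks
  have hh0 : 0 ≤ h' := he0.trans h1.le
  obtain ⟨n₀, hn₀⟩ := hDSQ Y ν T K P h' hE hap hPm h1
  have hF1 := (hGRO d (mm β plus) θ κ hThr).2.2
  have hF2 := hENT d β plus (by linarith) hF1
  obtain ⟨tl, ht1, ht2, ht3, hQ⟩ := hPAR d (mm β plus) θ κ hThr h h' β n₀ hh0 h2 hβ hF2
  obtain ⟨D, hDm, hDp, hMk, hD0⟩ := hn₀ tl.L ht1 ht2
  set Q₀ : ℕ → ℕ := fun g => (HH d (mm β plus) tl.M (g - tl.R)).card / 240 with hQ₀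
  have hQ0 : ∀ g, (g = tl.L ∨ g = tl.L + 1) → 0 < Q₀ g := by
    intro g hg
    have h3 : (0 : ℝ) < (Q₀ g : ℕ) := lt_of_lt_of_le (Real.exp_pos _) (hQ g hg)
    exact_mod_cast h3
  obtain ⟨msg, hmsg1, hmsg2⟩ := hMSG tl.L K h' Q₀
    (fun r => {w : Fin r → Fin K | Real.exp (-h' * r) ≤ ν.real (cyl T P w)}) ht2
    hh0 (fun g hg => hQ g hg) (fun r => hCAR Y ν T K P h' r hPm)
  obtain ⟨enc, henc1, henc2⟩ := hENC d (mm β plus) tl (fun g => 2 * Q₀ g)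
    (fun g hg => ⟨by have := hQ0 g hg; positivity, by
      show 120 * (2 * Q₀ g) ≤ _
      have h3 : Q₀ g = (HH d (mm β plus) tl.M (g - tl.R)).card / 240 := rfl
      omega⟩)
  have hM1B' := hM1B Y T K tl.L P D Q₀ msg hMk hmsg1
  refine ⟨⟨tl, D, hDm, hMk, fun g => 2 * Q₀ g, enc, henc1, henc2,
    ms1 T tl.L P (D 0) msg, hM1M Y T K tl.L P (D 0) msg hPm (hDm 0),
    fun y hy hyB => hM1B' y hy hyB⟩, ht3, hDp, ?_⟩
  intro y y' hy hy' hAg
  have hob : ob T (Bk T tl.L D 0) y = ob T (Bk T tl.L D 0) y' := hAg.1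
  exact hM1D Y T K tl.L P D
    (fun r => {w : Fin r → Fin K | Real.exp (-h' * r) ≤ ν.real (cyl T P w)}) msg hMk
    hD0 hmsg2 y y' hy hy' hob (fun s hs => (hAg.2 s hs).2)

end Pool.Agent.H4.PF
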