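import Pool.Agent.H58.PF.Targets

/-!
Module KNE: existence of the point above a countable model.
-/

set_option autoImplicit false

open Topology Cardinal

namespace Pool.Agent.H4.PF

open Pool.Agent.H58.PF

theorem kne : T_KNE := by
  intro W U _ E r 𝓗 N hr _ hN hM
  have hc : ({α | ∃ w, E.cw w ∈ N ∧ r w = α} : Set Pool.Agent.H64.AK.Om).Countable := by
    have h1 : (E.cw ⁻¹' N).Countable := hN.preimage (cw_inj E)
    have h2 := h1.image r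
    refine h2.mono ?_
    rintro α ⟨w, hw, hα⟩
    exact ⟨w, hw, hα⟩
  obtain ⟨α, hα⟩ := Pool.Agent.H60.CP.bdd hc
  have hne := (hr.cpt α).inter_iInter_nonempty (fun a : N => {w : W |
      (∀ b, a.1 = E.cw b → r b < r w) ∧ ∀ Φ, a.1 = E.cs Φ → wcl (pts Φ) ∈ 𝓗 →
        w ∈ closure {v | v ∈ pts Φ ∧ E.cw v ∈ N}}) (by
      intro a
      have h1 : {w : W | (∀ b, a.1 = E.cw b → r b < r w) ∧ ∀ Φ, a.1 = E.cs Φ →
          wcl (pts Φ) ∈ 𝓗 → w ∈ closure {v | v ∈ pts Φ ∧ E.cw v ∈ N}} =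
          (⋂ b, ⋂ (_ : a.1 = E.cw b), {w | r w ≤ r b}ᶜ) ∩
          ⋂ Φ, ⋂ (_ : a.1 = E.cs Φ), ⋂ (_ : wcl (pts Φ) ∈ 𝓗),
            closure {v | v ∈ pts Φ ∧ E.cw v ∈ N} := by
        ext w
        simp only [Set.mem_setOf_eq, Set.mem_inter_iff, Set.mem_iInter, Set.mem_compl_iff, not_le]
      rw [h1]
      exact (isClosed_iInter fun b => isClosed_iInter fun _ => (hr.opn (r b)).isClosed_compl).inter
        (isClosed_iInter fun Φ => isClosed_iInter fun _ => isClosed_iInter fun _ =>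
          isClosed_closure)) (by
      intro u
      obtain ⟨w, hw1, hw2⟩ := hM.wit (u.toList.map Subtype.val) (by
        intro a ha
        obtain ⟨b, -, rfl⟩ := List.mem_map.1 ha
        exact b.2)
      refine ⟨w, (hα _ ⟨w, hw1, rfl⟩).le, ?_⟩
      rw [Set.mem_iInter₂]
      intro a ha
      obtain ⟨h1, h2⟩ := hw2 a.1 (List.mem_map.2 ⟨a, Finset.mem_toList.2 ha, rfl⟩)
      exact ⟨h1, fun Φ hΦ hΦ2 => hM.app Φ w (hΦ ▸ a.2) hw1 (h2 Φ hΦ hΦ2)⟩)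
  obtain ⟨x, -, hx⟩ := hne
  rw [Set.mem_iInter] at hx
  exact ⟨x, fun w hw => (hx ⟨_, hw⟩).1 w rfl, fun Φ hΦ hΦ2 => (hx ⟨_, hΦ⟩).2 Φ rfl hΦ2⟩

end Pool.Agent.H4.PF
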