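import Pool.Agent.H58.PF.Targets

/-!
Module MDL: sets closed under suitable functions are models.
-/

set_option autoImplicit false

open Topology Cardinal

namespace Pool.Agent.H4.PF

open Pool.Agent.H58.PF

/-- countably many sequences of functions can be combined -/
theorem closed_pair {U : Type} (G : ℕ → ℕ → List U → U) :
    ∃ F : ℕ → List U → U, ∀ N, ClosedUnder F N → ∀ i n l, (∀ x ∈ l, x ∈ N) → G i n l ∈ N := by
  refine ⟨fun m l => G (Nat.unpair m).1 (Nat.unpair m).2 l, ?_⟩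
  intro N hN i n l hl
  have h := hN (Nat.pair i n) l hl
  beta_reduce at h
  rw [Nat.unpair_pair] at h
  exact h

theorem mdl_wit {W U : Type} [TopologicalSpace W] (E : Un W U) (r : W → Pool.Agent.H64.AK.Om)
    (𝓗 : Set (Set W)) (hH : MaxF r 𝓗) (l : List U) :
    ∃ w, ∀ a ∈ l, (∀ b, a = E.cw b → r b < r w) ∧
      ∀ Φ, a = E.cs Φ → wcl (pts Φ) ∈ 𝓗 → w ∈ wcl (pts Φ) := by
  have h1 : ∃ H ∈ 𝓗, ∀ a ∈ l, ∀ Φ, a = E.cs Φ → wcl (pts Φ) ∈ 𝓗 → H ⊆ wcl (pts Φ) := by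
    induction l with
    | nil => exact ⟨Set.univ, hH.uni, by simp⟩
    | cons a l ih =>
      obtain ⟨H, hH1, hH2⟩ := ih
      by_cases ha : wcl (pts (E.ds a)) ∈ 𝓗
      · refine ⟨H ∩ wcl (pts (E.ds a)), hH.inter H hH1 _ ha, ?_⟩
        intro b hb Φ hΦ hΦ2
        rcases List.mem_cons.1 hb with rfl | hb
        · rw [hΦ, E.ds_cs]
          exact Set.inter_subset_right
        · exact Set.inter_subset_left.trans (hH2 b hb Φ hΦ hΦ2)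
      · refine ⟨H, hH1, ?_⟩
        intro b hb Φ hΦ hΦ2
        rcases List.mem_cons.1 hb with rfl | hb
        · rw [hΦ, E.ds_cs] at ha
          exact absurd hΦ2 ha
        · exact hH2 b hb Φ hΦ hΦ2
  have h2 : ∃ α, ∀ a ∈ l, ∀ b, a = E.cw b → r b < α := by
    have hc : ({α | ∃ a ∈ l, r (E.dw a) = α} : Set Pool.Agent.H64.AK.Om).Countable := by
      have h3 : {α | ∃ a ∈ l, r (E.dw a) = α} = (fun a => r (E.dw a)) '' {a | a ∈ l} := rfl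
      rw [h3]
      exact (List.finite_toSet l).countable.image _
    obtain ⟨α, hα⟩ := Pool.Agent.H60.CP.bdd hc
    refine ⟨α, fun a ha b hb => ?_⟩
    have := hα _ ⟨a, ha, rfl⟩
    rwa [hb, E.dw_cw] at this
  obtain ⟨H, hH1, hH2⟩ := h1
  obtain ⟨α, hα⟩ := h2
  obtain ⟨w, hw, hw2⟩ := hH.unb H hH1 α
  exact ⟨w, fun a ha => ⟨fun b hb => (hα a ha b hb).trans hw2,
    fun Φ hΦ hΦ2 => hH2 a ha Φ hΦ hΦ2 hw⟩⟩

theorem mdl : T_MDL := by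
  classical
  intro W U _ E r 𝓗 hr hH
  have hOm : Nonempty Pool.Agent.H64.AK.Om := by
    obtain ⟨α, -⟩ := Pool.Agent.H60.CP.bdd (W := Pool.Agent.H64.AK.Om) Set.countable_empty
    exact ⟨α⟩
  obtain ⟨α0⟩ := hOm
  obtain ⟨w0, -⟩ := hr.unb α0
  obtain ⟨a0⟩ : Nonempty U := ⟨E.cw w0⟩
  have hbd : ∀ Φ : Set (List W), ∃ H : Set W, ∃ b : W, wcl (pts Φ) ∉ 𝓗 →
      H ∈ 𝓗 ∧ ∀ w ∈ H, w ∈ wcl (pts Φ) → r w ≤ r b := by
    intro Φ
    by_cases h : wcl (pts Φ) ∈ 𝓗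
    · exact ⟨Set.univ, w0, fun h2 => absurd h h2⟩
    · obtain ⟨H, hH1, α, hα⟩ := hH.max _ (wcl_wcl (pts Φ)) h
      obtain ⟨b, hb⟩ := hr.unb α
      exact ⟨H, b, fun _ => ⟨hH1, fun w hw hw2 => (hα w hw hw2).trans hb.le⟩⟩
  choose H1 b1 hHb using hbd
  choose wt hwt using mdl_wit E r 𝓗 hH
  have happ : ∀ (Φ : Set (List W)) (w : W), ∃ e : ℕ → W, w ∈ wcl (pts Φ) →
      (∀ n, e n ∈ pts Φ) ∧ w ∈ closure (Set.range e) := by
    intro Φ w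
    by_cases h : w ∈ wcl (pts Φ)
    · obtain ⟨B, hB1, hB2, hB3⟩ := h
      have hne : B.Nonempty := closure_nonempty_iff.1 ⟨w, hB3⟩
      obtain ⟨e, he⟩ := hB2.exists_eq_range hne
      exact ⟨e, fun _ => ⟨fun n => hB1 (he ▸ Set.mem_range_self n), he ▸ hB3⟩⟩
    · exact ⟨fun _ => w0, fun h2 => absurd h2 h⟩
  choose e he using happ
  obtain ⟨F, hF⟩ := closed_pair (U := U) (fun i n l =>
    if i = 0 then E.cs (sec (E.ds (l.getD 0 a0)) (E.dw (l.getD 1 a0)))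
    else if i = 1 then E.cs (qh 𝓗 (E.ds (l.getD 0 a0)))
    else if i = 2 then E.cs (sgl (H1 (E.ds (l.getD 0 a0))))
    else if i = 3 then E.cw (b1 (E.ds (l.getD 0 a0)))
    else if i = 4 then E.cw (wt l)
    else if i = 5 then E.cw (e (E.ds (l.getD 0 a0)) (E.dw (l.getD 1 a0)) n)
    else E.dec (l.getD 0 a0) n)
  refine ⟨F, fun N hN => ?_⟩
  have hG := hF N hN
  have hc1 : ∀ {a : U}, a ∈ N → ∀ x ∈ [a], x ∈ N := by
    intro a ha x hx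
    rw [List.mem_singleton] at hx
    exact hx ▸ ha
  have hc2 : ∀ {a b : U}, a ∈ N → b ∈ N → ∀ x ∈ [a, b], x ∈ N := by
    intro a b ha hb x hx
    rcases List.mem_cons.1 hx with rfl | hx
    · exact ha
    · exact hc1 hb x hx
  refine ⟨?_, ?_, ?_, ?_, ?_, ?_⟩
  · intro Φ w hΦ hw
    have h := hG 0 0 _ (hc2 hΦ hw)
    have h2 : E.cs (Pool.Agent.H58.PF.sec (E.ds (E.cs Φ)) (E.dw (E.cw w))) ∈ N := h
    rwa [E.ds_cs, E.dw_cw] at h2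
  · intro Φ hΦ
    have h := hG 1 0 _ (hc1 hΦ)
    have h2 : E.cs (Pool.Agent.H58.PF.qh 𝓗 (E.ds (E.cs Φ))) ∈ N := h
    rwa [E.ds_cs] at h2
  · intro Φ hΦ hΦ2
    have h := hG 2 0 _ (hc1 hΦ)
    have h2 : E.cs (sgl (H1 (E.ds (E.cs Φ)))) ∈ N := h
    have h3 := hG 3 0 _ (hc1 hΦ)
    have h4 : E.cw (b1 (E.ds (E.cs Φ))) ∈ N := h3
    rw [E.ds_cs] at h2 h4
    exact ⟨H1 Φ, (hHb Φ hΦ2).1, h2, b1 Φ, h4, (hHb Φ hΦ2).2⟩
  · intro l hl
    have h := hG 4 0 l hl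
    have h2 : E.cw (wt l) ∈ N := h
    exact ⟨wt l, h2, hwt l⟩
  · intro Φ w hΦ hw hw2
    have h : ∀ n, E.cw (e Φ w n) ∈ N := by
      intro n
      have h := hG 5 n _ (hc2 hΦ hw)
      have h2 : E.cw (e (E.ds (E.cs Φ)) (E.dw (E.cw w)) n) ∈ N := h
      rwa [E.ds_cs, E.dw_cw] at h2
    obtain ⟨h3, h4⟩ := he Φ w hw2
    refine closure_mono ?_ h4
    rintro _ ⟨n, rfl⟩
    exact ⟨h3 n, h n⟩
  · intro a ha n
    exact hG 6 n _ (hc1 ha)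

end Pool.Agent.H4.PF
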