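import Pool.Agent.H58.PF.Targets

/-!
Module TOP: adding a node on top.
-/

set_option autoImplicit false

open Topology Cardinal

namespace Pool.Agent.H4.PF

open Pool.Agent.H58.PF

theorem top (hKNE : T_KNE) : T_TOP := by
  classical
  intro W U ι _ E r 𝓗 B hr hH p N hN hM hp
  obtain ⟨w0, hw0, -⟩ := hM.wit [] (by simp)
  obtain ⟨e, he⟩ := hN.exists_eq_range ⟨_, hw0⟩
  obtain ⟨u, hu⟩ : ∃ u, Ran E u = N := ⟨E.enc e, by rw [ran_enc, he]⟩
  obtain ⟨x, hx⟩ := hKNE W U E r 𝓗 N hr hH hN hM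
  have hB : ∀ s ∈ p.1.nodes, Below E s (u, x) := by
    intro s hs
    unfold Below
    rw [hu]
    exact hp s hs
  have hg : Good E r 𝓗 B (⟨insert (u, x) p.1.nodes, p.1.prom⟩ : Cnd U W ι) := by
    refine ⟨?_, ?_, ?_, ?_, ?_⟩
    · intro t ht
      rcases Finset.mem_insert.1 ht with rfl | ht
      · rw [hu]
        exact ⟨hM, hx⟩
      · exact p.2.mdl t ht
    · intro s hs t ht
      rcases Finset.mem_insert.1 hs with rfl | hs
      · rcases Finset.mem_insert.1 ht with rfl | ht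
        · exact Or.inl rfl
        · exact Or.inr (Or.inr (hB t ht))
      · rcases Finset.mem_insert.1 ht with rfl | ht
        · exact Or.inr (Or.inl (hB s hs))
        · exact p.2.chain s hs t ht
    · intro v hv
      obtain ⟨⟨t, ht, h1⟩, h2⟩ := p.2.pnt v hv
      exact ⟨⟨t, Finset.mem_insert_of_mem ht, h1⟩, h2⟩
    · intro v hv b hb
      obtain ⟨⟨t, ht, h1⟩, h2⟩ := p.2.bot v hv b hb
      exact ⟨⟨t, Finset.mem_insert_of_mem ht, h1⟩, h2⟩
    · intro v hv t ht h1 h2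
      rcases Finset.mem_insert.1 ht with rfl | ht
      · obtain ⟨⟨t', ht', h3⟩, -⟩ := p.2.pnt v hv
        have h4 := hx.1 t'.2 (hp t' ht').2
        rw [h3] at h4
        exact absurd h4 (not_lt.2 h2.le)
      · exact p.2.keep v hv t ht h1 h2
  exact ⟨⟨_, hg⟩, ⟨Finset.subset_insert _ _, Finset.Subset.refl _⟩, (u, x),
    Finset.mem_insert_self _ _, hu⟩

end Pool.Agent.H4.PF
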