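import Pool.Agent.H58.PF.Targets

/-!
Module ZOR: maximal filters of `ω`-closed unbounded sets exist.
-/

set_option autoImplicit false

open Topology Cardinal

namespace Pool.Agent.H4.PF

open Pool.Agent.H58.PF

/-- filters of `ω`-closed unbounded sets -/
structure PreF {W : Type} [TopologicalSpace W] (r : W → Pool.Agent.H64.AK.Om)
    (𝓗 : Set (Set W)) : Prop where
  wc : ∀ H ∈ 𝓗, wcl H ⊆ H
  inter : ∀ H ∈ 𝓗, ∀ H' ∈ 𝓗, H ∩ H' ∈ 𝓗
  uni : Set.univ ∈ 𝓗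
  unb : ∀ H ∈ 𝓗, ∀ α, ∃ w ∈ H, α < r w

theorem zor : T_ZOR := by
  intro W _ r hr
  obtain ⟨𝓗, -, hmax⟩ := zorn_subset_nonempty {F : Set (Set W) | PreF r F} (by
    intro c hc hch hne
    refine ⟨⋃₀ c, ?_, fun s hs => Set.subset_sUnion_of_mem hs⟩
    refine ⟨?_, ?_, ?_, ?_⟩
    · rintro H ⟨F, hF, hH⟩
      exact (hc hF).wc H hH
    · rintro H ⟨F, hF, hH⟩ H' ⟨F', hF', hH'⟩
      rcases hch.total hF hF' with h | h
      · exact ⟨F', hF', (hc hF').inter H (h hH) H' hH'⟩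
      · exact ⟨F, hF, (hc hF).inter H hH H' (h hH')⟩
    · obtain ⟨F, hF⟩ := hne
      exact ⟨F, hF, (hc hF).uni⟩
    · rintro H ⟨F, hF, hH⟩
      exact (hc hF).unb H hH) {Set.univ} (by
    refine ⟨?_, ?_, ?_, ?_⟩
    · rintro H rfl
      exact Set.subset_univ _
    · rintro H rfl H' rfl
      exact Set.inter_self _
    · rfl
    · rintro H rfl α
      obtain ⟨w, hw⟩ := hr.unb α
      exact ⟨w, Set.mem_univ w, hw⟩)
  have hP : PreF r 𝓗 := hmax.prop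
  refine ⟨𝓗, hP.wc, hP.inter, hP.uni, hP.unb, ?_⟩
  intro A hA hA2
  by_contra hcon
  push Not at hcon
  apply hA2
  have h1 : PreF r (𝓗 ∪ {B | ∃ H ∈ 𝓗, B = H ∩ A}) := by
    refine ⟨?_, ?_, Or.inl hP.uni, ?_⟩
    · rintro B (hB | ⟨H, hH, rfl⟩)
      · exact hP.wc B hB
      · exact Set.subset_inter ((wcl_mono Set.inter_subset_left).trans (hP.wc H hH))
          ((wcl_mono Set.inter_subset_right).trans hA)
    · rintro B (hB | ⟨H, hH, rfl⟩) B' (hB' | ⟨H', hH', rfl⟩)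
      · exact Or.inl (hP.inter B hB B' hB')
      · refine Or.inr ⟨B ∩ H', hP.inter B hB H' hH', ?_⟩
        rw [Set.inter_assoc]
      · refine Or.inr ⟨H ∩ B', hP.inter H hH B' hB', ?_⟩
        rw [Set.inter_right_comm]
      · refine Or.inr ⟨H ∩ H', hP.inter H hH H' hH', ?_⟩
        rw [Set.inter_inter_inter_comm, Set.inter_self]
    · rintro B (hB | ⟨H, hH, rfl⟩) α
      · exact hP.unb B hB α
      · obtain ⟨w, hw, hwA, hα⟩ := hcon H hH α
        exact ⟨w, ⟨hw, hwA⟩, hα⟩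
  have h2 := hmax.le_of_ge h1 Set.subset_union_left
  exact h2 (Or.inr ⟨Set.univ, hP.uni, (Set.univ_inter A).symm⟩)

end Pool.Agent.H4.PF
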